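import Pool.Agent.Helper48K9.FD.Defs

/-!
# Bundling, padding and perturbing a system
-/

namespace Pool.Agent.Helper48K9.FD

open Finset Filter Topology KLev.Levels

namespace FinL

variable {ι : Type} (E : Finset (ι × ι)) (a : ℕ)

/-- the crossings on the antidiagonal `i + j = a` -/
def g0 (z : E × Fin (a - 1)) :
    ((ι × Fin a) ⊕ (∅ : Finset (ι × ι))) × ((ι × Fin a) ⊕ (∅ : Finset (ι × ι))) :=
  (Sum.inl (z.1.1.1, ⟨z.2 + 1, by have := z.2.2; omega⟩),
    Sum.inl (z.1.1.2, ⟨a - 1 - z.2, by have := z.2.2; omega⟩))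

/-- the crossings on the antidiagonal `i + j = a - 1` -/
def g1 (z : E × Fin a) :
    ((ι × Fin a) ⊕ (∅ : Finset (ι × ι))) × ((ι × Fin a) ⊕ (∅ : Finset (ι × ι))) :=
  (Sum.inl (z.1.1.1, z.2), Sum.inl (z.1.1.2, ⟨a - 1 - z.2, by have := z.2.2; omega⟩))

lemma g0_inj : Function.Injective (g0 E a) := by
  rintro ⟨r, i⟩ ⟨r', i'⟩ h
  simp only [g0, Prod.mk.injEq, Sum.inl.injEq, Fin.mk.injEq] at h
  obtain ⟨⟨h1, h2⟩, h3, -⟩ := h
  exact Prod.ext (Subtype.ext (Prod.ext h1 h3)) (Fin.ext (by simpa using h2))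

lemma g1_inj : Function.Injective (g1 E a) := by
  rintro ⟨r, i⟩ ⟨r', i'⟩ h
  simp only [g1, Prod.mk.injEq, Sum.inl.injEq, Fin.mk.injEq] at h
  obtain ⟨⟨h1, h2⟩, h3, -⟩ := h
  exact Prod.ext (Subtype.ext (Prod.ext h1 h3)) h2

/-- perturbation into general position -/
lemma perturb (hPe : S_PERT) (hV : S_VTX) (κ : Type) [Fintype κ] (s t : κ → ℝ) (l : ℕ)
    (F₀ F₁ : Finset (κ × κ)) (h0 : ∀ e ∈ F₀, Evt s t (l + 1) e) (h1 : ∀ e ∈ F₁, Evt s t l e) :
    ∃ Γ : Finset (ℝ × ℝ), Γ.card = Fintype.card κ ∧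
      (∀ x ∈ Γ, ∃ i, s i = x.1) ∧
      Pool.Agent.Y375.FD.NoThree Γ ∧ F₀.card + F₁.card ≤ complexity Γ (l + 1) := by
  classical
  have htend : ∀ c : κ, Tendsto (fun z : ℝ => t c + z ^ ((Fintype.equivFin κ c : ℕ) + 1))
      (𝓝[>] (0:ℝ)) (𝓝 (t c)) := by
    intro c
    have h : ContinuousAt (fun z : ℝ => t c + z ^ ((Fintype.equivFin κ c : ℕ) + 1)) 0 := by
      fun_prop
    have h2 := h.tendsto
    simp only [ne_eq, Nat.add_eq_zero_iff, one_ne_zero, and_false, not_false_eq_true, zero_pow,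
      add_zero] at h2
    exact h2.mono_left nhdsWithin_le_nhds
  have hev2 : ∀ᶠ z in 𝓝[>] (0:ℝ),
      (∀ e ∈ F₀, Evt s (fun c => t c + z ^ ((Fintype.equivFin κ c : ℕ) + 1)) (l + 1) e) ∧
      (∀ e ∈ F₁, Evt s (fun c => t c + z ^ ((Fintype.equivFin κ c : ℕ) + 1)) l e) := by
    apply Filter.Eventually.and
    · rw [Filter.eventually_all_finset]
      intro e he
      exact hPe κ s t (fun z c => t c + z ^ ((Fintype.equivFin κ c : ℕ) + 1)) _ _ (h0 e he)
        htend
    · rw [Filter.eventually_all_finset]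
      intro e he
      exact hPe κ s t (fun z c => t c + z ^ ((Fintype.equivFin κ c : ℕ) + 1)) _ _ (h1 e he)
        htend
  obtain ⟨z, ⟨hz0, hz1⟩, hsim⟩ := (hev2.and (KLev.ev_simple s t)).exists
  set t3 : κ → ℝ := fun c => t c + z ^ ((Fintype.equivFin κ c : ℕ) + 1) with ht3
  set g : κ → ℝ × ℝ := fun i => (s i, t3 i) with hg
  have hginj : Function.Injective g := by
    intro i j hij
    by_contra hne
    simp only [hg, Prod.mk.injEq] at hij
    exact hsim.2 i j hne hij.1 hij.2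
  refine ⟨Finset.univ.image g, ?_, ?_, ?_, ?_⟩
  · rw [Finset.card_image_of_injective _ hginj, Finset.card_univ]
  · intro x hx
    rw [Finset.mem_image] at hx
    obtain ⟨i, -, rfl⟩ := hx
    exact ⟨i, rfl⟩
  · intro l' hl m hm j hj hlm hlj hmj x hx
    rw [Finset.mem_image] at hl hm hj
    obtain ⟨a', -, rfl⟩ := hl
    obtain ⟨b, -, rfl⟩ := hm
    obtain ⟨c, -, rfl⟩ := hj
    exact hsim.1 a' b c (fun h => hlm (by rw [h])) (fun h => hlj (by rw [h]))
      (fun h => hmj (by rw [h])) x hx.1 hx.2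
  · exact (hV κ s t3 l F₀ F₁ hginj hz0 hz1).trans (le_of_eq rfl)

end FinL

open FinL

theorem fin_ (hC : S_EVC) (hP : S_PAD) (hPe : S_PERT) (hV : S_VTX) : S_FIN := by
  classical
  intro ι _ s t k E a n l hne hE ha hal hn
  obtain ⟨i₀⟩ := hne
  -- the bundles
  have hrho : ∀ r, rho (∅ : Finset (ι × ι)) s t 0 r = 0 := by
    intro r
    unfold rho
    simp
  have hgen : ∀ r, Gen (∅ : Finset (ι × ι)) s t 0 r := fun r r' h => by simp at h
  have hev : ∀ᶠ δ in 𝓝[>] (0:ℝ),
      (∀ z, Evt (ns (∅ : Finset (ι × ι)) a s 0)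
        (fun c => nt0 ∅ a s t 0 c + δ * nt1 ∅ a s t 0 (fun _ => 1) c)
        (a * k + a) (g0 E a z)) ∧
      (∀ z, Evt (ns (∅ : Finset (ι × ι)) a s 0)
        (fun c => nt0 ∅ a s t 0 c + δ * nt1 ∅ a s t 0 (fun _ => 1) c)
        (a * k + (a - 1)) (g1 E a z)) := by
    apply Filter.Eventually.and
    · rw [eventually_all]
      rintro ⟨⟨r, hr⟩, i⟩
      have h6 := hC ι s t k ∅ a 0 (fun _ => 1) r ⟨i + 1, by have := i.2; omega⟩
        ⟨a - 1 - i, by have := i.2; omega⟩ (hE r hr) (hgen r) one_pos one_pos (by simp)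
      have h7 : a * k + rho ∅ s t 0 r + ((⟨i + 1, by have := i.2; omega⟩ : Fin a) : ℕ) +
            ((⟨a - 1 - i, by have := i.2; omega⟩ : Fin a) : ℕ) = a * k + a := by
        have f2 := i.2
        rw [hrho]
        show a * k + 0 + ((i:ℕ) + 1) + (a - 1 - i) = a * k + a
        omega
      rw [h7] at h6
      exact h6
    · rw [eventually_all]
      rintro ⟨⟨r, hr⟩, i⟩
      have h6 := hC ι s t k ∅ a 0 (fun _ => 1) r i
        ⟨a - 1 - i, by have := i.2; omega⟩ (hE r hr) (hgen r) one_pos one_pos (by simp)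
      have h7 : a * k + rho ∅ s t 0 r + (i : ℕ) +
            ((⟨a - 1 - i, by have := i.2; omega⟩ : Fin a) : ℕ) = a * k + (a - 1) := by
        have f2 := i.2
        rw [hrho]
        show a * k + 0 + (i:ℕ) + (a - 1 - i) = a * k + (a - 1)
        omega
      rw [h7] at h6
      exact h6
  obtain ⟨δ, hδ0, hδ1⟩ := hev.exists
  set s1 := ns (∅ : Finset (ι × ι)) a s 0 with hs1
  set t1 := (fun c => nt0 ∅ a s t 0 c + δ * nt1 ∅ a s t 0 (fun _ => 1) c) with ht1
  -- the pads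
  set P : ℕ := n - a * Fintype.card ι - (l - a * (k + 1)) with hPdef
  set Q : ℕ := l - a * (k + 1) with hQdef
  set lev : ((ι × Fin a) ⊕ (∅ : Finset (ι × ι))) × ((ι × Fin a) ⊕ (∅ : Finset (ι × ι))) → ℕ :=
    fun e => (univ.filter (fun c => s1 c * px s1 t1 e + t1 c < py s1 t1 e)).card with hlev
  have hself : ∀ {k' e}, Evt s1 t1 k' e → Evt s1 t1 (lev e) e := by
    intro k' e h
    exact ⟨h.lt, h.off, rfl⟩
  have hlevk : ∀ {k' e}, Evt s1 t1 k' e → lev e = k' := by
    intro k' e h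
    rw [← h.card]
  obtain ⟨T, hT⟩ := hP _ s1 t1 (univ.image (g0 E a) ∪ univ.image (g1 E a)) lev (s i₀) P Q (by
    intro e he
    rcases Finset.mem_union.mp he with h | h
    · obtain ⟨z, -, rfl⟩ := Finset.mem_image.mp h
      exact hself (hδ0 z)
    · obtain ⟨z, -, rfl⟩ := Finset.mem_image.mp h
      exact hself (hδ1 z))
  set s2 := Sum.elim s1 (fun _ : Fin P ⊕ Fin Q => s i₀) with hs2
  set t2 := Sum.elim t1 (Sum.elim (fun _ : Fin P => T) (fun _ : Fin Q => -T)) with ht2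
  have hQ1 : a * k + a + Q = l - 1 + 1 := by
    have : a * (k + 1) = a * k + a := by ring
    omega
  have hQ2 : a * k + (a - 1) + Q = l - 1 := by
    have : a * (k + 1) = a * k + a := by ring
    omega
  have hT0 : ∀ z, Evt s2 t2 (l - 1 + 1) (Sum.inl (g0 E a z).1, Sum.inl (g0 E a z).2) := by
    intro z
    have h := hT _ (Finset.mem_union_left _ (Finset.mem_image_of_mem (g0 E a) (mem_univ z)))
    rw [hlevk (hδ0 z), hQ1] at h
    exact h
  have hT1 : ∀ z, Evt s2 t2 (l - 1) (Sum.inl (g1 E a z).1, Sum.inl (g1 E a z).2) := by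
    intro z
    have h := hT _ (Finset.mem_union_right _ (Finset.mem_image_of_mem (g1 E a) (mem_univ z)))
    rw [hlevk (hδ1 z), hQ2] at h
    exact h
  -- the perturbation
  obtain ⟨Γ, f1, f2, f3, f4⟩ := perturb hPe hV _ s2 t2 (l - 1)
      (univ.image (fun u => (Sum.inl (g0 E a u).1, Sum.inl (g0 E a u).2)))
      (univ.image (fun u => (Sum.inl (g1 E a u).1, Sum.inl (g1 E a u).2)))
      (by
        intro e he
        obtain ⟨u, -, rfl⟩ := Finset.mem_image.mp he
        exact hT0 u)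
      (by
        intro e he
        obtain ⟨u, -, rfl⟩ := Finset.mem_image.mp he
        exact hT1 u)
  refine ⟨Γ, ?_, ?_, f3, ?_⟩
  · rw [f1]
    simp only [Fintype.card_sum, Fintype.card_prod, Fintype.card_fin]
    have h1 : Fintype.card (∅ : Finset (ι × ι)) = 0 := by simp
    rw [h1]
    have h2 : Fintype.card ι * a = a * Fintype.card ι := mul_comm _ _
    omega
  · apply Finset.card_le_card
    intro x hx
    rw [Finset.mem_image] at hx
    obtain ⟨y, hy, rfl⟩ := hx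
    obtain ⟨i, hi⟩ := f2 y hy
    rw [Finset.mem_image, ← hi]
    rcases i with (i | i) | i
    · exact ⟨i.1, mem_univ _, rfl⟩
    · exact absurd i.2 (Finset.notMem_empty _)
    · exact ⟨i₀, mem_univ _, rfl⟩
  · have h2 : l - 1 + 1 = l := by
      have : 1 ≤ a * (k + 1) := Nat.mul_pos ha (by omega)
      omega
    rw [h2] at f4
    rw [Finset.card_image_of_injective, Finset.card_image_of_injective, Finset.card_univ,
      Finset.card_univ, Fintype.card_prod, Fintype.card_prod, Fintype.card_fin, Fintype.card_fin,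
      Fintype.card_coe] at f4
    · refine le_trans (le_of_eq ?_) f4
      obtain ⟨b, rfl⟩ : ∃ b, a = b + 1 := ⟨a - 1, by omega⟩
      have e1 : 2 * (b + 1) - 1 = 2 * b + 1 := by omega
      have e2 : b + 1 - 1 = b := by omega
      rw [e1, e2]
      ring
    · intro u u' h
      simp only [Prod.mk.injEq, Sum.inl.injEq] at h
      exact g1_inj E a (Prod.ext h.1 h.2)
    · intro u u' h
      simp only [Prod.mk.injEq, Sum.inl.injEq] at h
      exact g0_inj E a (Prod.ext h.1 h.2)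

end Pool.Agent.Helper48K9.FD
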