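import Pool.Agent.Helper48K9.FD.Defs

/-! # [INJ] -/

namespace Pool.Agent.Helper48K9.FD

open Finset Filter Topology KLev.Levels

/-- [INJ] -/
theorem inj : S_INJ := by
  intro κ _ s t k k' e e' he he' hx hy
  have hd : ∀ (e : κ × κ), s e.1 * px s t e + t e.1 = py s t e := fun e => rfl
  have hd2 : ∀ (e : κ × κ), s e.2 < s e.1 → s e.2 * px s t e + t e.2 = py s t e := by
    intro e hlt
    have h1 : s e.1 - s e.2 ≠ 0 := by linarith
    unfold py px
    field_simp
    ring
  have h1 : e'.1 = e.1 ∨ e'.1 = e.2 := by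
    by_contra hcon
    push Not at hcon
    refine he.off e'.1 hcon.1 hcon.2 ?_
    rw [hx, hy]
    exact hd e'
  have h2 : e'.2 = e.1 ∨ e'.2 = e.2 := by
    by_contra hcon
    push Not at hcon
    refine he.off e'.2 hcon.1 hcon.2 ?_
    rw [hx, hy]
    exact hd2 e' he'.lt
  have l1 := he.lt
  have l2 := he'.lt
  rcases h1 with h1 | h1 <;> rcases h2 with h2 | h2
  · rw [h1, h2] at l2
    exact absurd l2 (lt_irrefl _)
  · exact Prod.ext h1.symm h2.symm
  · rw [h1, h2] at l2
    exact absurd l2 (not_lt.2 l1.le)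
  · rw [h1, h2] at l2
    exact absurd l2 (lt_irrefl _)

end Pool.Agent.Helper48K9.FD
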