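import Pool.Agent.Helper48K9.FD.Defs

/-! # [LOC] -/

namespace Pool.Agent.Helper48K9.FD

open Finset Filter Topology KLev.Levels

namespace LocL

theorem px_eq {κ : Type} (s t0 t1 : κ → ℝ) (e : κ × κ) {X Y x₁ y₁ δ : ℝ}
    (hs : s e.2 < s e.1) (h1 : s e.1 * X + t0 e.1 = Y) (h2 : s e.2 * X + t0 e.2 = Y)
    (h3 : s e.1 * x₁ + t1 e.1 = y₁) (h4 : s e.2 * x₁ + t1 e.2 = y₁) :
    px s (fun c => t0 c + δ * t1 c) e = X + δ * x₁ := by
  unfold px
  rw [div_eq_iff (by linarith)]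
  linear_combination h2 - h1 + δ * (h4 - h3)

theorem py_eq {κ : Type} (s t0 t1 : κ → ℝ) (e : κ × κ) {X Y x₁ y₁ δ : ℝ}
    (hs : s e.2 < s e.1) (h1 : s e.1 * X + t0 e.1 = Y) (h2 : s e.2 * X + t0 e.2 = Y)
    (h3 : s e.1 * x₁ + t1 e.1 = y₁) (h4 : s e.2 * x₁ + t1 e.2 = y₁) :
    py s (fun c => t0 c + δ * t1 c) e = Y + δ * y₁ := by
  unfold py
  rw [px_eq s t0 t1 e hs h1 h2 h3 h4]
  linear_combination h1 + δ * h3

end LocL

/-- [LOC] -/
theorem loc : S_LOC := by
  classical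
  intro κ _ s t0 t1 k e X Y x₁ y₁ hs h1 h2 h3 h4 hoff hcard
  have key : ∀ᶠ δ in 𝓝[>] (0:ℝ), ∀ c : κ, (c ≠ e.1 → c ≠ e.2 →
      s c * (X + δ * x₁) + (t0 c + δ * t1 c) ≠ Y + δ * y₁) ∧
      (s c * (X + δ * x₁) + (t0 c + δ * t1 c) < Y + δ * y₁ ↔
        (s c * X + t0 c < Y ∨ (s c * X + t0 c = Y ∧ s c * x₁ + t1 c < y₁))) := by
    rw [eventually_all]
    intro c
    have e1 : ∀ δ : ℝ, s c * (X + δ * x₁) + (t0 c + δ * t1 c) - (Y + δ * y₁) =
        (s c * X + t0 c - Y) + δ * (s c * x₁ + t1 c - y₁) := by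
      intro δ
      ring
    rcases eq_or_ne (s c * X + t0 c) Y with hY | hY
    · filter_upwards [self_mem_nhdsWithin] with δ hδ
      have hδ0 : 0 < δ := hδ
      have e2 : s c * (X + δ * x₁) + (t0 c + δ * t1 c) - (Y + δ * y₁) =
          δ * (s c * x₁ + t1 c - y₁) := by
        rw [e1 δ, hY]
        ring
      refine ⟨?_, ?_⟩
      · intro hc1 hc2 hcon
        have h5 : δ * (s c * x₁ + t1 c - y₁) = 0 := by
          rw [← e2, hcon, sub_self]
        rcases mul_eq_zero.1 h5 with h6 | h6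
        · exact hδ0.ne' h6
        · exact hoff c hc1 hc2 hY (by linarith)
      · constructor
        · intro h5
          right
          refine ⟨hY, ?_⟩
          have h6 : δ * (s c * x₁ + t1 c - y₁) < 0 := by linarith
          by_contra h7
          push Not at h7
          have := mul_nonneg hδ0.le (by linarith : 0 ≤ s c * x₁ + t1 c - y₁)
          linarith
        · rintro (h5 | ⟨_, h5⟩)
          · exact absurd hY h5.ne
          · have : δ * (s c * x₁ + t1 c - y₁) < 0 := mul_neg_of_pos_of_neg hδ0 (by linarith)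
            linarith
    · filter_upwards [KLev.ev_sign (s c * x₁ + t1 c - y₁) (sub_ne_zero.2 hY)] with δ hδ
      rw [← e1 δ] at hδ
      refine ⟨fun _ _ => sub_ne_zero.1 hδ.1, ?_⟩
      rw [← sub_neg, hδ.2, sub_neg]
      constructor
      · exact fun h5 => Or.inl h5
      · rintro (h5 | h5)
        · exact h5
        · exact absurd h5.1 hY
  filter_upwards [key] with δ hδ
  have hpx := LocL.px_eq s t0 t1 e (δ := δ) hs h1 h2 h3 h4
  have hpy := LocL.py_eq s t0 t1 e (δ := δ) hs h1 h2 h3 h4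
  refine ⟨hs, ?_, ?_⟩
  · intro c hc1 hc2
    rw [hpx, hpy]
    exact (hδ c).1 hc1 hc2
  · rw [← hcard]
    congr 1
    ext c
    simp only [mem_filter, mem_univ, true_and]
    rw [hpx, hpy]
    exact (hδ c).2

end Pool.Agent.Helper48K9.FD
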