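import Pool.Agent.Helper48K9.FD.Defs2
import Pool.Agent.Helper13K9.FD.Cnt

/-!
# All gaps at once: [MCNT], [MEVA], [MEVB], [MEVC] (adapted from [CNT], [EVA], [EVB], [EVC])
-/

namespace Pool.Agent.Helper48K9.FD

open Finset Filter Topology KLev.Levels

theorem mcnt : S_MCNT := by
  intro ι _ s t w k R a t1 r x₁ y₁ hE hG hx
  classical
  have h1 := cntL_py_fst s t r
  have h2 := cntL_py_snd s t r hE.lt
  have hne : r.1 ≠ r.2 := fun h => by
    have := hE.lt
    rw [h] at this
    exact lt_irrefl _ this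
  rw [Finset.card_filter, Fintype.sum_sum_type, Fintype.sum_prod_type]
  set A : ℕ := (univ.filter (fun i : Fin a => s r.1 * x₁ + t1 (Sum.inl (r.1, i)) < y₁)).card
    with hA
  set B : ℕ := (univ.filter (fun j : Fin a => s r.2 * x₁ + t1 (Sum.inl (r.2, j)) < y₁)).card
    with hB
  have e1 : ∀ c : ι, (∑ i : Fin a, if (ms R a s w (Sum.inl (c, i)) * px s t r +
      mt0 R a s t w (Sum.inl (c, i)) < py s t r ∨
      (ms R a s w (Sum.inl (c, i)) * px s t r + mt0 R a s t w (Sum.inl (c, i)) = py s t r ∧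
        ms R a s w (Sum.inl (c, i)) * x₁ + t1 (Sum.inl (c, i)) < y₁)) then 1 else 0) =
      (if s c * px s t r + t c < py s t r then a else 0) + (if c = r.1 then A else 0) +
        (if c = r.2 then B else 0) := by
    intro c
    simp only [ms, mt0, Sum.elim_inl]
    by_cases c1 : c = r.1
    · subst c1
      rw [if_neg (show ¬ (s r.1 * px s t r + t r.1 < py s t r) by rw [h1]; exact lt_irrefl _),
        if_pos rfl, if_neg hne, hA, Finset.card_filter]
      simp only [h1, lt_irrefl, true_and, false_or, zero_add, add_zero]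
    by_cases c2 : c = r.2
    · subst c2
      rw [if_neg (show ¬ (s r.2 * px s t r + t r.2 < py s t r) by rw [h2]; exact lt_irrefl _),
        if_neg c1, if_pos rfl, hB, Finset.card_filter]
      simp only [h2, lt_irrefl, true_and, false_or, zero_add]
    · have h3 := hE.off c c1 c2
      rw [if_neg c1, if_neg c2]
      simp only [h3, false_and, or_false, add_zero]
      rw [Finset.sum_const, Finset.card_univ, Fintype.card_fin]
      split_ifs <;> simp
  have e2 : (∑ r' : R, if (ms R a s w (Sum.inr r') * px s t r +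
      mt0 R a s t w (Sum.inr r') < py s t r ∨
      (ms R a s w (Sum.inr r') * px s t r + mt0 R a s t w (Sum.inr r') = py s t r ∧
        ms R a s w (Sum.inr r') * x₁ + t1 (Sum.inr r') < y₁)) then 1 else 0) =
      mrho R s t w r := by
    have e3 : ∀ r' : R, (if (ms R a s w (Sum.inr r') * px s t r +
      mt0 R a s t w (Sum.inr r') < py s t r ∨
      (ms R a s w (Sum.inr r') * px s t r + mt0 R a s t w (Sum.inr r') = py s t r ∧
        ms R a s w (Sum.inr r') * x₁ + t1 (Sum.inr r') < y₁)) then 1 else 0) =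
        (if (r' : ι × ι) ≠ r ∧ sl s w r' * px s t r + (py s t r' - sl s w r' * px s t r') <
          py s t r then 1 else 0) := by
      rintro ⟨r', hr'⟩
      simp only [ms, mt0, Sum.elim_inr]
      by_cases c1 : r' = r
      · subst c1
        have h4 := hx hr'
        have h5 : ¬ (sl s w r' * px s t r' + (py s t r' - sl s w r' * px s t r') <
            py s t r') := by
          intro h; linarith
        simp only [ne_eq, not_true_eq_false, false_and, if_false, h4, h5, and_false, or_self]
      · have h4 := hG r' hr' c1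
        simp only [h4, false_and, or_false, ne_eq, c1, not_false_eq_true, true_and]
    rw [Finset.sum_congr rfl (fun r' _ => e3 r')]
    rw [Finset.sum_coe_sort R (fun r' : ι × ι =>
      if r' ≠ r ∧ sl s w r' * px s t r + (py s t r' - sl s w r' * px s t r') <
          py s t r then 1 else 0)]
    rw [mrho, Finset.card_filter]
  rw [Finset.sum_congr rfl (fun c _ => e1 c), e2, Finset.sum_add_distrib, Finset.sum_add_distrib,
    Finset.sum_ite_eq' Finset.univ r.1, Finset.sum_ite_eq' Finset.univ r.2,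
    if_pos (Finset.mem_univ _), if_pos (Finset.mem_univ _)]
  have e4 : (∑ c : ι, if s c * px s t r + t c < py s t r then a else 0) = a * k := by
    rw [← Finset.sum_filter, Finset.sum_const, smul_eq_mul, mul_comm]
    congr 1
    exact hE.card
  rw [e4]
  ring

theorem meva (hLoc : S_LOC) (hCnt : S_MCNT) : S_MEVA := by
  intro ι _ s t w k R a r h i hE hG p1 p2 hi
  classical
  have h1 := cntL_py_fst s t r
  have h2 := cntL_py_snd s t r hE.lt
  have hne : r.1 ≠ r.2 := fun h => by
    have := hE.lt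
    rw [h] at this
    exact lt_irrefl _ this
  set ρ := mrho R s t w r with hρ
  have hσ : 0 < s r.1 - s r.2 := by linarith [hE.lt]
  obtain ⟨x₁, hx₁⟩ : ∃ x : ℝ, x = (w r.2 * ((a:ℝ) - ρ - 3 / 2) - (w r.1 + w r.2) * (i:ℕ)) /
    (s r.1 - s r.2) := ⟨_, rfl⟩
  obtain ⟨y₁, hy₁⟩ : ∃ y : ℝ, y = s r.1 * x₁ + w r.1 * (i:ℕ) := ⟨_, rfl⟩
  have hpos : 0 < w r.1 + w r.2 := by positivity
  have hx₂ : (s r.1 - s r.2) * x₁ = w r.2 * ((a:ℝ) - ρ - 3 / 2) - (w r.1 + w r.2) * (i:ℕ) := by
    rw [hx₁]
    field_simp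
  have k1 : s r.1 * x₁ + w r.1 * (i:ℕ) = y₁ := hy₁.symm
  have k2 : sl s w r * x₁ + w r.1 * w r.2 / (w r.1 + w r.2) * ((a:ℝ) - ρ - 3 / 2) = y₁ := by
    rw [sl, div_mul_eq_mul_div, div_mul_eq_mul_div, ← add_div, div_eq_iff hpos.ne', hy₁]
    linear_combination (-(w r.1)) * hx₂
  have k3 : ∀ j : ℕ, s r.1 * x₁ + w r.1 * (j:ℝ) - y₁ = w r.1 * ((j:ℝ) - (i:ℕ)) := by
    intro j
    rw [hy₁]; ring
  have k4 : ∀ j : ℕ, s r.2 * x₁ + w r.2 * (j:ℝ) - y₁ =
      w r.2 * (((i:ℕ):ℝ) + (j:ℝ) - ((a:ℝ) - ρ - 3 / 2)) := by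
    intro j
    rw [hy₁]
    linear_combination -hx₂
  apply hLoc ((ι × Fin a) ⊕ R) (ms R a s w) (mt0 R a s t w) (mt1 R a s t w)
    (a * k + (a - 1)) (Sum.inl (r.1, i), Sum.inr ⟨r, h⟩) (px s t r) (py s t r) x₁ y₁
  · simp only [ms, Sum.elim_inl, Sum.elim_inr]
    rw [sl, div_lt_iff₀ hpos]
    have := mul_pos p1 hσ
    linarith
  · simp only [ms, mt0, Sum.elim_inl]
    exact h1
  · simp only [ms, mt0, Sum.elim_inr]
    ring
  · simp only [ms, mt1, Sum.elim_inl]
    exact k1
  · simp only [ms, mt1, Sum.elim_inr]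
    exact k2
  · rintro (⟨c, j⟩ | ⟨r', hr'⟩) hc1 hc2 hc3
    · simp only [ms, mt0, Sum.elim_inl] at hc3
      simp only [ms, mt1, Sum.elim_inl]
      by_cases c1 : c = r.1
      · subst c1
        intro h3
        have h4 := k3 j
        rw [h3, sub_self] at h4
        rcases mul_eq_zero.mp h4.symm with h5 | h5
        · linarith
        · apply hc1
          have : (j : ℕ) = (i : ℕ) := by
            have : ((j:ℕ):ℝ) = (i:ℕ) := by linarith
            exact_mod_cast this
          have : j = i := Fin.ext this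
          rw [this]
      · by_cases c2 : c = r.2
        · subst c2
          intro h3
          have h4 := k4 j
          rw [h3, sub_self] at h4
          rcases mul_eq_zero.mp h4.symm with h5 | h5
          · linarith
          · exact cntL_half_ne _ _ _ _ h5
        · exact absurd hc3 (hE.off c c1 c2)
    · simp only [ms, mt0, Sum.elim_inr] at hc3
      have hr : r' ≠ r := by
        rintro rfl
        exact hc2 rfl
      have h4 := hG r' hr' hr
      exact absurd hc3 h4
  · have h3 := hCnt ι s t w k R a (mt1 R a s t w) r x₁ y₁ hE hG (by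
      intro h'
      simp only [mt1, Sum.elim_inr]
      rw [← hρ, k2]
      exact lt_irrefl _)
    have h4 : (univ.filter (fun i' : Fin a => s r.1 * x₁ + mt1 R a s t w (Sum.inl (r.1, i')) <
        y₁)).card = i := by
      apply cntL_card_fin_lt _ _ i.2.le
      intro i'
      simp only [mt1, Sum.elim_inl]
      have := k3 i'
      constructor
      · intro h5
        have h6 : w r.1 * (((i':ℕ):ℝ) - (i:ℕ)) < 0 := by linarith
        have h7 : ((i':ℕ):ℝ) - (i:ℕ) < 0 := by
          by_contra h8
          push Not at h8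
          nlinarith [mul_nonneg p1.le h8]
        have : ((i':ℕ):ℝ) < (i:ℕ) := by linarith
        exact_mod_cast this
      · intro h5
        have h6 : ((i':ℕ):ℝ) < (i:ℕ) := by exact_mod_cast h5
        have h7 : w r.1 * (((i':ℕ):ℝ) - (i:ℕ)) < 0 := mul_neg_of_pos_of_neg p1 (by linarith)
        linarith
    have h5 : (univ.filter (fun j : Fin a => s r.2 * x₁ + mt1 R a s t w (Sum.inl (r.2, j)) <
        y₁)).card = a - ρ - 1 - i := by
      apply cntL_card_fin_lt _ _ (by omega)
      intro j
      simp only [mt1, Sum.elim_inl]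
      have := k4 j
      have h8 := cntL_half_lt (i:ℕ) (j:ℕ) a ρ
      constructor
      · intro h5
        have h6 : w r.2 * (((i:ℕ):ℝ) + (j:ℕ) - ((a:ℝ) - ρ - 3 / 2)) < 0 := by linarith
        have h7 : (((i:ℕ):ℝ) + (j:ℕ) - ((a:ℝ) - ρ - 3 / 2)) < 0 := by
          by_contra h9
          push Not at h9
          nlinarith [mul_nonneg p2.le h9]
        have := h8.mp h7
        omega
      · intro h5
        have h6 := h8.mpr (by omega)
        have h7 : w r.2 * (((i:ℕ):ℝ) + (j:ℕ) - ((a:ℝ) - ρ - 3 / 2)) < 0 :=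
          mul_neg_of_pos_of_neg p2 h6
        linarith
    calc _ = a * k + ρ + (univ.filter (fun i' : Fin a => s r.1 * x₁ +
              mt1 R a s t w (Sum.inl (r.1, i')) < y₁)).card +
            (univ.filter (fun j : Fin a => s r.2 * x₁ + mt1 R a s t w (Sum.inl (r.2, j)) <
              y₁)).card := by
          refine Eq.trans ?_ (h3.trans ?_)
          · congr!
          · congr!
      _ = a * k + (a - 1) := by
          rw [h4, h5]
          omega

theorem mevb (hLoc : S_LOC) (hCnt : S_MCNT) : S_MEVB := by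
  intro ι _ s t w k R a r h j hE hG p1 p2 hj
  classical
  have h1 := cntL_py_fst s t r
  have h2 := cntL_py_snd s t r hE.lt
  have hne : r.1 ≠ r.2 := fun h => by
    have := hE.lt
    rw [h] at this
    exact lt_irrefl _ this
  set ρ := mrho R s t w r with hρ
  have hσ : 0 < s r.1 - s r.2 := by linarith [hE.lt]
  obtain ⟨x₁, hx₁⟩ : ∃ x : ℝ, x = ((w r.1 + w r.2) * (j:ℕ) - w r.1 * ((a:ℝ) - ρ - 3 / 2)) /
    (s r.1 - s r.2) := ⟨_, rfl⟩
  obtain ⟨y₁, hy₁⟩ : ∃ y : ℝ, y = s r.2 * x₁ + w r.2 * (j:ℕ) := ⟨_, rfl⟩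
  have hpos : 0 < w r.1 + w r.2 := by positivity
  have hx₂ : (s r.1 - s r.2) * x₁ = (w r.1 + w r.2) * (j:ℕ) - w r.1 * ((a:ℝ) - ρ - 3 / 2) := by
    rw [hx₁]
    field_simp
  have k1 : s r.2 * x₁ + w r.2 * (j:ℕ) = y₁ := hy₁.symm
  have k2 : sl s w r * x₁ + w r.1 * w r.2 / (w r.1 + w r.2) * ((a:ℝ) - ρ - 3 / 2) = y₁ := by
    rw [sl, div_mul_eq_mul_div, div_mul_eq_mul_div, ← add_div, div_eq_iff hpos.ne', hy₁]
    linear_combination (w r.2) * hx₂
  have k3 : ∀ i : ℕ, s r.2 * x₁ + w r.2 * (i:ℝ) - y₁ = w r.2 * ((i:ℝ) - (j:ℕ)) := by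
    intro i
    rw [hy₁]; ring
  have k4 : ∀ i : ℕ, s r.1 * x₁ + w r.1 * (i:ℝ) - y₁ =
      w r.1 * ((i:ℝ) + ((j:ℕ):ℝ) - ((a:ℝ) - ρ - 3 / 2)) := by
    intro i
    rw [hy₁]
    linear_combination hx₂
  apply hLoc ((ι × Fin a) ⊕ R) (ms R a s w) (mt0 R a s t w) (mt1 R a s t w)
    (a * k + (a - 1)) (Sum.inr ⟨r, h⟩, Sum.inl (r.2, j)) (px s t r) (py s t r) x₁ y₁
  · simp only [ms, Sum.elim_inl, Sum.elim_inr]
    rw [sl, lt_div_iff₀ hpos]
    have := mul_pos p2 hσ
    linarith
  · simp only [ms, mt0, Sum.elim_inr]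
    ring
  · simp only [ms, mt0, Sum.elim_inl]
    exact h2
  · simp only [ms, mt1, Sum.elim_inr]
    exact k2
  · simp only [ms, mt1, Sum.elim_inl]
    exact k1
  · rintro (⟨c, i⟩ | ⟨r', hr'⟩) hc1 hc2 hc3
    · simp only [ms, mt0, Sum.elim_inl] at hc3
      simp only [ms, mt1, Sum.elim_inl]
      by_cases c1 : c = r.2
      · subst c1
        intro h3
        have h4 := k3 i
        rw [h3, sub_self] at h4
        rcases mul_eq_zero.mp h4.symm with h5 | h5
        · linarith
        · apply hc2
          have : (i : ℕ) = (j : ℕ) := by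
            have : ((i:ℕ):ℝ) = (j:ℕ) := by linarith
            exact_mod_cast this
          have : i = j := Fin.ext this
          rw [this]
      · by_cases c2 : c = r.1
        · subst c2
          intro h3
          have h4 := k4 i
          rw [h3, sub_self] at h4
          rcases mul_eq_zero.mp h4.symm with h5 | h5
          · linarith
          · exact cntL_half_ne _ _ _ _ h5
        · exact absurd hc3 (hE.off c c2 c1)
    · simp only [ms, mt0, Sum.elim_inr] at hc3
      have hr : r' ≠ r := by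
        rintro rfl
        exact hc1 rfl
      have h4 := hG r' hr' hr
      exact absurd hc3 h4
  · have h3 := hCnt ι s t w k R a (mt1 R a s t w) r x₁ y₁ hE hG (by
      intro h'
      simp only [mt1, Sum.elim_inr]
      rw [← hρ, k2]
      exact lt_irrefl _)
    have h4 : (univ.filter (fun i' : Fin a => s r.2 * x₁ + mt1 R a s t w (Sum.inl (r.2, i')) <
        y₁)).card = j := by
      apply cntL_card_fin_lt _ _ j.2.le
      intro i'
      simp only [mt1, Sum.elim_inl]
      have := k3 i'
      constructor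
      · intro h5
        have h6 : w r.2 * (((i':ℕ):ℝ) - (j:ℕ)) < 0 := by linarith
        have h7 : ((i':ℕ):ℝ) - (j:ℕ) < 0 := by
          by_contra h8
          push Not at h8
          nlinarith [mul_nonneg p2.le h8]
        have : ((i':ℕ):ℝ) < (j:ℕ) := by linarith
        exact_mod_cast this
      · intro h5
        have h6 : ((i':ℕ):ℝ) < (j:ℕ) := by exact_mod_cast h5
        have h7 : w r.2 * (((i':ℕ):ℝ) - (j:ℕ)) < 0 := mul_neg_of_pos_of_neg p2 (by linarith)
        linarith
    have h5 : (univ.filter (fun i : Fin a => s r.1 * x₁ + mt1 R a s t w (Sum.inl (r.1, i)) <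
        y₁)).card = a - ρ - 1 - j := by
      apply cntL_card_fin_lt _ _ (by omega)
      intro i
      simp only [mt1, Sum.elim_inl]
      have := k4 i
      have h8 := cntL_half_lt (i:ℕ) (j:ℕ) a ρ
      constructor
      · intro h5
        have h6 : w r.1 * (((i:ℕ):ℝ) + (j:ℕ) - ((a:ℝ) - ρ - 3 / 2)) < 0 := by linarith
        have h7 : (((i:ℕ):ℝ) + (j:ℕ) - ((a:ℝ) - ρ - 3 / 2)) < 0 := by
          by_contra h9
          push Not at h9
          nlinarith [mul_nonneg p1.le h9]
        have := h8.mp h7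
        omega
      · intro h5
        have h6 := h8.mpr (by omega)
        have h7 : w r.1 * (((i:ℕ):ℝ) + (j:ℕ) - ((a:ℝ) - ρ - 3 / 2)) < 0 :=
          mul_neg_of_pos_of_neg p1 h6
        linarith
    calc _ = a * k + ρ + (univ.filter (fun i : Fin a => s r.1 * x₁ +
              mt1 R a s t w (Sum.inl (r.1, i)) < y₁)).card +
            (univ.filter (fun j : Fin a => s r.2 * x₁ + mt1 R a s t w (Sum.inl (r.2, j)) <
              y₁)).card := by
          refine Eq.trans ?_ (h3.trans ?_)
          · congr!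
          · congr!
      _ = a * k + (a - 1) := by
          rw [h4, h5]
          omega

theorem mevc (hLoc : S_LOC) (hCnt : S_MCNT) : S_MEVC := by
  intro ι _ s t w k R a r i j hE hG p1 p2 hr
  classical
  have h1 := cntL_py_fst s t r
  have h2 := cntL_py_snd s t r hE.lt
  have hlt := hE.lt
  have hne : r.1 ≠ r.2 := fun h => by
    have := hE.lt
    rw [h] at this
    exact lt_irrefl _ this
  set ρ := mrho R s t w r with hρ
  obtain ⟨x₁, hx₁⟩ : ∃ x : ℝ, x = (w r.2 * (j:ℕ) - w r.1 * (i:ℕ)) / (s r.1 - s r.2) := ⟨_, rfl⟩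
  obtain ⟨y₁, hy₁⟩ : ∃ y : ℝ, y = s r.1 * x₁ + w r.1 * (i:ℕ) := ⟨_, rfl⟩
  have hs : s r.1 - s r.2 ≠ 0 := by linarith
  have k1 : s r.1 * x₁ + w r.1 * (i:ℕ) = y₁ := hy₁.symm
  have k2 : s r.2 * x₁ + w r.2 * (j:ℕ) = y₁ := by
    rw [hy₁, hx₁]
    field_simp
    ring
  have k3 : ∀ i' : ℕ, s r.1 * x₁ + w r.1 * (i':ℝ) - y₁ = w r.1 * ((i':ℝ) - (i:ℕ)) := by
    intro i'
    rw [hy₁]; ring
  have k4 : ∀ j' : ℕ, s r.2 * x₁ + w r.2 * (j':ℝ) - y₁ = w r.2 * ((j':ℝ) - (j:ℕ)) := by
    intro j'
    rw [← k2]; ring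
  apply hLoc ((ι × Fin a) ⊕ R) (ms R a s w) (mt0 R a s t w) (mt1 R a s t w)
    (a * k + ρ + i + j) (Sum.inl (r.1, i), Sum.inl (r.2, j)) (px s t r) (py s t r) x₁ y₁
  · simp only [ms, Sum.elim_inl]
    exact hE.lt
  · simp only [ms, mt0, Sum.elim_inl]
    exact h1
  · simp only [ms, mt0, Sum.elim_inl]
    exact h2
  · simp only [ms, mt1, Sum.elim_inl]
    exact k1
  · simp only [ms, mt1, Sum.elim_inl]
    exact k2
  · rintro (⟨c, i'⟩ | ⟨r', hr'⟩) hc1 hc2 hc3
    · simp only [ms, mt0, Sum.elim_inl] at hc3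
      simp only [ms, mt1, Sum.elim_inl]
      by_cases c1 : c = r.1
      · subst c1
        intro h3
        have h4 := k3 i'
        rw [h3, sub_self] at h4
        rcases mul_eq_zero.mp h4.symm with h5 | h5
        · linarith
        · apply hc1
          have : (i' : ℕ) = (i : ℕ) := by
            have : ((i':ℕ):ℝ) = (i:ℕ) := by linarith
            exact_mod_cast this
          have : i' = i := Fin.ext this
          rw [this]
      · by_cases c2 : c = r.2
        · subst c2
          intro h3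
          have h4 := k4 i'
          rw [h3, sub_self] at h4
          rcases mul_eq_zero.mp h4.symm with h5 | h5
          · linarith
          · apply hc2
            have : (i' : ℕ) = (j : ℕ) := by
              have : ((i':ℕ):ℝ) = (j:ℕ) := by linarith
              exact_mod_cast this
            have : i' = j := Fin.ext this
            rw [this]
        · exact absurd hc3 (hE.off c c1 c2)
    · simp only [ms, mt0, Sum.elim_inr] at hc3
      have hr1 : r' ≠ r := by
        rintro rfl
        exact hr hr'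
      have h4 := hG r' hr' hr1
      exact absurd hc3 h4
  · have h3 := hCnt ι s t w k R a (mt1 R a s t w) r x₁ y₁ hE hG (fun h' => absurd h' hr)
    have h4 : (univ.filter (fun i' : Fin a => s r.1 * x₁ + mt1 R a s t w (Sum.inl (r.1, i')) <
        y₁)).card = i := by
      apply cntL_card_fin_lt _ _ i.2.le
      intro i'
      simp only [mt1, Sum.elim_inl]
      have := k3 i'
      constructor
      · intro h5
        have h6 : w r.1 * (((i':ℕ):ℝ) - (i:ℕ)) < 0 := by linarith
        have h7 : ((i':ℕ):ℝ) - (i:ℕ) < 0 := by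
          by_contra h8
          push Not at h8
          nlinarith [mul_nonneg p1.le h8]
        have : ((i':ℕ):ℝ) < (i:ℕ) := by linarith
        exact_mod_cast this
      · intro h5
        have h6 : ((i':ℕ):ℝ) < (i:ℕ) := by exact_mod_cast h5
        have h7 : w r.1 * (((i':ℕ):ℝ) - (i:ℕ)) < 0 := mul_neg_of_pos_of_neg p1 (by linarith)
        linarith
    have h5 : (univ.filter (fun i' : Fin a => s r.2 * x₁ + mt1 R a s t w (Sum.inl (r.2, i')) <
        y₁)).card = j := by
      apply cntL_card_fin_lt _ _ j.2.le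
      intro i'
      simp only [mt1, Sum.elim_inl]
      have := k4 i'
      constructor
      · intro h5
        have h6 : w r.2 * (((i':ℕ):ℝ) - (j:ℕ)) < 0 := by linarith
        have h7 : ((i':ℕ):ℝ) - (j:ℕ) < 0 := by
          by_contra h8
          push Not at h8
          nlinarith [mul_nonneg p2.le h8]
        have : ((i':ℕ):ℝ) < (j:ℕ) := by linarith
        exact_mod_cast this
      · intro h5
        have h6 : ((i':ℕ):ℝ) < (j:ℕ) := by exact_mod_cast h5
        have h7 : w r.2 * (((i':ℕ):ℝ) - (j:ℕ)) < 0 := mul_neg_of_pos_of_neg p2 (by linarith)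
        linarith
    calc _ = a * k + ρ + (univ.filter (fun i : Fin a => s r.1 * x₁ +
              mt1 R a s t w (Sum.inl (r.1, i)) < y₁)).card +
            (univ.filter (fun j : Fin a => s r.2 * x₁ + mt1 R a s t w (Sum.inl (r.2, j)) <
              y₁)).card := by
          refine Eq.trans ?_ (h3.trans ?_)
          · congr!
          · congr!
      _ = a * k + ρ + i + j := by
          rw [h4, h5]

end Pool.Agent.Helper48K9.FD
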