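import Pool.Agent.Helper48K9.FD.Defs2

/-!
# Generic weights, and the start of the recursion
-/

namespace Pool.Agent.Helper48K9.FD

open Finset Filter Topology KLev.Levels

/-- the slope of the new line is an injective function of the parameter -/
lemma sl_inj {κ : Type} (s : κ → ℝ) (r : κ × κ) (h : s r.2 < s r.1) :
    Function.Injective (fun z : ℝ => sl s (fun c => Real.exp (z * s c)) r) := by
  intro z z' hz
  simp only [sl] at hz
  have h1 : 0 < Real.exp (z * s r.1) := Real.exp_pos _
  have h2 : 0 < Real.exp (z * s r.2) := Real.exp_pos _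
  have h3 : 0 < Real.exp (z' * s r.1) := Real.exp_pos _
  have h4 : 0 < Real.exp (z' * s r.2) := Real.exp_pos _
  rw [div_eq_div_iff (by positivity) (by positivity)] at hz
  have h5 : (s r.1 - s r.2) * (Real.exp (z * s r.1) * Real.exp (z' * s r.2) -
      Real.exp (z * s r.2) * Real.exp (z' * s r.1)) = 0 := by
    linear_combination -hz
  have h6 : s r.1 - s r.2 ≠ 0 := by linarith
  have h7 := (mul_eq_zero.mp h5).resolve_left h6
  rw [← Real.exp_add, ← Real.exp_add, sub_eq_zero, Real.exp_eq_exp] at h7
  have h8 : (z - z') * (s r.1 - s r.2) = 0 := by linear_combination h7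
  have h9 := (mul_eq_zero.mp h8).resolve_right h6
  linarith

theorem mgen (hI : S_INJ) : S_MGEN := by
  classical
  intro ι _ s t k R E hR hE
  -- for every pair the bad set of parameters is finite
  have hfin : ∀ r ∈ E, ∀ r' ∈ R, r' ≠ r → Set.Finite {z : ℝ |
      sl s (fun c => Real.exp (z * s c)) r' * px s t r + (py s t r' -
        sl s (fun c => Real.exp (z * s c)) r' * px s t r') = py s t r} := by
    intro r hr r' hr' hne
    by_cases hx : px s t r' = px s t r
    · convert Set.finite_empty
      rw [Set.eq_empty_iff_forall_notMem]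
      intro z hz
      have hz' : sl s (fun c => Real.exp (z * s c)) r' * px s t r + (py s t r' -
        sl s (fun c => Real.exp (z * s c)) r' * px s t r') = py s t r := hz
      rw [hx] at hz'
      exact hne (hI ι s t k k r' r (hR r' hr') (hE r hr) hx (by linarith))
    · apply Set.Finite.subset (Set.Finite.preimage
        (f := fun z : ℝ => sl s (fun c => Real.exp (z * s c)) r')
        (s := {(py s t r - py s t r') / (px s t r - px s t r')})
        ((sl_inj s r' (hR r' hr').lt).injOn) (Set.finite_singleton _))
      intro z hz
      have hz' : sl s (fun c => Real.exp (z * s c)) r' * px s t r + (py s t r' -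
        sl s (fun c => Real.exp (z * s c)) r' * px s t r') = py s t r := hz
      show sl s (fun c => Real.exp (z * s c)) r' = _
      rw [eq_div_iff (sub_ne_zero.mpr (Ne.symm hx))]
      linarith
  set B : Set ℝ := ⋃ r ∈ E, ⋃ r' ∈ R, {z : ℝ | r' ≠ r ∧
      sl s (fun c => Real.exp (z * s c)) r' * px s t r + (py s t r' -
        sl s (fun c => Real.exp (z * s c)) r' * px s t r') = py s t r} with hB
  have hBf : B.Finite := by
    apply Set.Finite.biUnion (Finset.finite_toSet E)
    intro r hr
    apply Set.Finite.biUnion (Finset.finite_toSet R)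
    intro r' hr'
    by_cases hne : r' = r
    · convert Set.finite_empty
      rw [Set.eq_empty_iff_forall_notMem]
      rintro z ⟨h1, -⟩
      exact h1 hne
    · exact (hfin r hr r' hr' hne).subset (fun z hz => hz.2)
  obtain ⟨z, hz⟩ := hBf.infinite_compl.nonempty
  refine ⟨z, fun r hr r' hr' hne h => hz ?_⟩
  rw [hB]
  simp only [Set.mem_iUnion]
  exact ⟨r, hr, r', hr', hne, h⟩

theorem mbase : S_MBASE := by
  classical
  refine ⟨Bool, inferInstance, Unit, inferInstance, fun b => if b then 1 else -1, fun _ => 0, 0,
    fun _ => -1, fun _ => 1, fun _ => {(true, false)}, rfl, by simp, by simp, ?_, by simp, ?_, ?_⟩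
  · exact (Finset.card_image_le).trans (by simp)
  · intro q q' h
    exact absurd (Subsingleton.elim q q') h
  · intro q e he
    rw [Finset.mem_singleton] at he
    subst he
    refine ⟨⟨by norm_num, ?_, ?_⟩, by simp, by simp⟩
    · intro c h1 h2
      cases c
      · exact absurd rfl h2
      · exact absurd rfl h1
    · rw [Finset.card_eq_zero, Finset.filter_eq_empty_iff]
      intro c _
      simp [px, py]

end Pool.Agent.Helper48K9.FD
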