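import Pool.Agent.Helper48K9.FD.Defs2

/-!
# The iteration of the refinement step
-/

set_option autoImplicit false

namespace Pool.Agent.Helper48K9.FD

open Finset Filter Topology

namespace MitL

/-- one refinement with `a = 4 ^ (i + b) * M` and `j ≤ 2 ^ i` -/
lemma step (hstep : S_MSTEP) (b i : ℕ) {G M m N : ℕ} (h : HasG G M m N) (hM : 1 ≤ M) (hm : m ≤ M)
    {x : ℝ} (h1 : (1 - x) * (M:ℝ) ≤ m) (h2 : (N:ℝ) ≤ (2 + x) * M) {j : ℕ} (hj : j ≤ G)
    (hj2 : j ≤ 2 ^ i) :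
    ∃ m' N' : ℕ, HasG (G + j) (4 ^ (i + b) * M * M) m' N' ∧ m' ≤ 4 ^ (i + b) * M * M ∧
      (1 - (x + 1 / (4 ^ b * 2 ^ i))) * ((4 ^ (i + b) * M * M : ℕ) : ℝ) ≤ m' ∧
      (N' : ℝ) ≤ (2 + (x + 1 / (4 ^ b * 2 ^ i))) * ((4 ^ (i + b) * M * M : ℕ) : ℝ) := by
  have ha : 1 ≤ 4 ^ (i + b) * M := Nat.mul_pos (by positivity) hM
  have hh := hstep G M m N h j (4 ^ (i + b) * M) hj ha
  refine ⟨_, _, hh, ?_, ?_, ?_⟩
  · calc m * (4 ^ (i + b) * M - j * m) ≤ M * (4 ^ (i + b) * M) :=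
          Nat.mul_le_mul hm (Nat.sub_le _ _)
      _ = _ := by ring
  · have h4 : j * m ≤ 4 ^ (i + b) * M := by
      refine Nat.mul_le_mul (hj2.trans ?_) hm
      calc 2 ^ i ≤ 4 ^ i := Nat.pow_le_pow_left (by norm_num) i
        _ ≤ 4 ^ (i + b) := Nat.pow_le_pow_right (by norm_num) (by omega)
    have hMr : (1:ℝ) ≤ M := by exact_mod_cast hM
    have hmr : (m:ℝ) ≤ M := by exact_mod_cast hm
    have hm0 : (0:ℝ) ≤ m := Nat.cast_nonneg m
    have hjr : (j:ℝ) ≤ 2 ^ i := by exact_mod_cast hj2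
    have hj0 : (0:ℝ) ≤ j := Nat.cast_nonneg j
    push_cast [Nat.cast_sub h4]
    -- `y = 1 / (4 ^ b 2 ^ i)`, `2 ^ i = y 4 ^ (i + b)`
    set y : ℝ := 1 / (4 ^ b * 2 ^ i) with hy
    have hy0 : 0 < y := by positivity
    have e1 : (2:ℝ) ^ i = y * 4 ^ (i + b) := by
      rw [hy, pow_add, show (4:ℝ) ^ i = 2 ^ i * 2 ^ i by
        rw [← mul_pow]; norm_num]
      field_simp
    have hA : (0:ℝ) < 4 ^ (i + b) := by positivity
    have e2 : (j:ℝ) * m ≤ y * 4 ^ (i + b) * M := by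
      rw [← e1]
      exact mul_le_mul hjr hmr hm0 (by positivity)
    have e3 : (1 - y) * (4 ^ (i + b) * M) ≤ 4 ^ (i + b) * M - j * m := by
      linarith
    have e5 : (m:ℝ) * ((1 - y) * (4 ^ (i + b) * M)) ≤ m * (4 ^ (i + b) * M - j * m) :=
      mul_le_mul_of_nonneg_left e3 hm0
    refine le_trans ?_ e5
    have hAM : (0:ℝ) ≤ 4 ^ (i + b) * M := by positivity
    have e6 : (1 - (x + y)) * (M:ℝ) ≤ m * (1 - y) := by
      have : y * (m:ℝ) ≤ y * M := mul_le_mul_of_nonneg_left hmr hy0.le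
      nlinarith
    calc (1 - (x + y)) * (4 ^ (i + b) * M * M) = ((1 - (x + y)) * M) * (4 ^ (i + b) * M) := by ring
      _ ≤ (m * (1 - y)) * (4 ^ (i + b) * M) := mul_le_mul_of_nonneg_right e6 hAM
      _ = _ := by ring
  · have hMr : (1:ℝ) ≤ M := by exact_mod_cast hM
    have hmr : (m:ℝ) ≤ M := by exact_mod_cast hm
    have hm0 : (0:ℝ) ≤ m := Nat.cast_nonneg m
    have hjr : (j:ℝ) ≤ 2 ^ i := by exact_mod_cast hj2
    have hj0 : (0:ℝ) ≤ j := Nat.cast_nonneg j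
    push_cast
    set y : ℝ := 1 / (4 ^ b * 2 ^ i) with hy
    have hy0 : 0 < y := by positivity
    have e1 : (2:ℝ) ^ i = y * 4 ^ (i + b) := by
      rw [hy, pow_add, show (4:ℝ) ^ i = 2 ^ i * 2 ^ i by
        rw [← mul_pow]; norm_num]
      field_simp
    have hA : (0:ℝ) < 4 ^ (i + b) := by positivity
    have e2 : (j:ℝ) * m ≤ y * 4 ^ (i + b) * M := by
      rw [← e1]
      exact mul_le_mul hjr hmr hm0 (by positivity)
    have hAM : (0:ℝ) ≤ 4 ^ (i + b) * M := by positivity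
    have e3 : (4 ^ (i + b) * M) * (N:ℝ) ≤ (4 ^ (i + b) * M) * ((2 + x) * M) :=
      mul_le_mul_of_nonneg_left h2 hAM
    have e4 : y * 4 ^ (i + b) * (M:ℝ) ≤ y * (4 ^ (i + b) * M * M) := by
      have : (4 ^ (i + b) * (M:ℝ)) * 1 ≤ (4 ^ (i + b) * M) * M :=
        mul_le_mul_of_nonneg_left hMr hAM
      have h5 := mul_le_mul_of_nonneg_left this hy0.le
      linarith
    calc 4 ^ (i + b) * (M:ℝ) * N + j * m ≤ (4 ^ (i + b) * M) * ((2 + x) * M) +
          y * (4 ^ (i + b) * M * M) := by linarith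
      _ = _ := by ring

/-- the state after `i` doublings -/
lemma main (hbase : S_MBASE) (hstep : S_MSTEP) (b : ℕ) (i : ℕ) : ∃ M m N : ℕ,
    HasG (2 ^ i) M m N ∧ 4 ^ (i + b + 1) * M = 4 ^ ((b + 1) * 2 ^ i) ∧ 1 ≤ M ∧ m ≤ M ∧
      (1 - 2 * (1 - 1 / 2 ^ i) / 4 ^ b) * (M:ℝ) ≤ m ∧
      (N:ℝ) ≤ (2 + 2 * (1 - 1 / 2 ^ i) / 4 ^ b) * M := by
  induction i with
  | zero =>
    refine ⟨1, 1, 2, by rw [pow_zero]; exact hbase, by simp, le_rfl, le_rfl, by simp, by simp⟩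
  | succ i ih =>
    obtain ⟨M, m, N, h, hM, hM1, hm, h1, h2⟩ := ih
    obtain ⟨m', N', g1, g2, g3, g4⟩ := step hstep b i h hM1 hm h1 h2 le_rfl le_rfl
    have e : (2:ℝ) * (1 - 1 / 2 ^ i) / 4 ^ b + 1 / (4 ^ b * 2 ^ i) =
        2 * (1 - 1 / 2 ^ (i + 1)) / 4 ^ b := by
      rw [pow_succ]
      field_simp
      ring
    rw [e] at g3 g4
    refine ⟨_, m', N', ?_, ?_, ?_, g2, g3, g4⟩
    · rw [pow_succ, mul_two]
      exact g1
    · calc 4 ^ (i + 1 + b + 1) * (4 ^ (i + b) * M * M)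
          = (4 ^ (i + b + 1) * M) * (4 ^ (i + b + 1) * M) := by ring
        _ = 4 ^ ((b + 1) * 2 ^ (i + 1)) := by
          rw [hM, ← pow_add]
          congr 1
          ring
    · exact Nat.mul_pos (Nat.mul_pos (by positivity) hM1) hM1

end MitL

open MitL in
theorem mit : S_MIT := by
  intro hbase hstep ε hε hε1
  obtain ⟨b, hb⟩ : ∃ b : ℕ, 4 / ε < 4 ^ b := pow_unbounded_of_one_lt _ (by norm_num)
  have hb' : 4 ≤ ε * 4 ^ b := by
    rw [div_lt_iff₀ hε] at hb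
    linarith
  refine ⟨16 ^ (b + 1), Nat.one_le_pow _ _ (by norm_num), fun G hG => ?_⟩
  set i : ℕ := Nat.log 2 G with hi
  have hi1 : 2 ^ i ≤ G := Nat.pow_log_le_self 2 (by omega)
  have hi2 : G < 2 ^ (i + 1) := Nat.lt_pow_succ_log_self (by norm_num) G
  obtain ⟨M, m, N, h, hM, hM1, hm, h1, h2⟩ := main hbase hstep b i
  have hj : G - 2 ^ i ≤ 2 ^ i := by
    rw [pow_succ] at hi2
    omega
  obtain ⟨m', N', g1, g2, g3, g4⟩ := step hstep b i h hM1 hm h1 h2 hj hj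
  have e : (2:ℝ) * (1 - 1 / 2 ^ i) / 4 ^ b + 1 / (4 ^ b * 2 ^ i) ≤ ε := by
    have e1 : (2:ℝ) * (1 - 1 / 2 ^ i) / 4 ^ b + 1 / (4 ^ b * 2 ^ i) =
        (2 - 1 / 2 ^ i) / 4 ^ b := by
      field_simp
      ring
    rw [e1, div_le_iff₀ (by positivity)]
    have : (0:ℝ) ≤ 1 / 2 ^ i := by positivity
    linarith
  have hG' : 2 ^ i + (G - 2 ^ i) = G := by omega
  rw [hG'] at g1
  refine ⟨_, m', N', g1, Nat.mul_pos (Nat.mul_pos (by positivity) hM1) hM1, ?_, ?_, ?_⟩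
  · have h5 : 4 ^ (i + 1 + b + 1) * (4 ^ (i + b) * M * M) = 4 ^ ((b + 1) * 2 ^ (i + 1)) := by
      calc 4 ^ (i + 1 + b + 1) * (4 ^ (i + b) * M * M)
          = (4 ^ (i + b + 1) * M) * (4 ^ (i + b + 1) * M) := by ring
        _ = 4 ^ ((b + 1) * 2 ^ (i + 1)) := by
          rw [hM, ← pow_add]
          congr 1
          ring
    calc 4 ^ (i + b) * M * M ≤ 4 ^ (i + 1 + b + 1) * (4 ^ (i + b) * M * M) :=
          Nat.le_mul_of_pos_left _ (by positivity)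
      _ = 4 ^ ((b + 1) * 2 ^ (i + 1)) := h5
      _ ≤ 4 ^ ((b + 1) * (2 * G)) := by
          apply Nat.pow_le_pow_right (by norm_num)
          apply Nat.mul_le_mul_left
          rw [pow_succ]
          omega
      _ = (16 ^ (b + 1)) ^ G := by
          rw [show (16:ℕ) = 4 ^ 2 by norm_num, ← pow_mul, ← pow_mul]
          congr 1
          ring
  · refine le_trans ?_ g3
    apply mul_le_mul_of_nonneg_right _ (Nat.cast_nonneg _)
    linarith
  · refine g4.trans ?_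
    apply mul_le_mul_of_nonneg_right _ (Nat.cast_nonneg _)
    linarith

end Pool.Agent.Helper48K9.FD
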