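import Pool.Agent.Helper48K9.FD.Defs

/-!
# The asymptotic form
-/

namespace Pool.Agent.Helper48K9.FD

open Finset Filter Topology KLev.Levels

lemma arith (ε ε' m M a : ℝ) (e1 : 0 < ε') (e2 : 12 * ε' ≤ ε) (e3 : 12 * ε' ≤ 1) (hM : 1 ≤ M)
    (hm : 0 < m) (hm3 : 3 * M ≤ ε' * m) (ha2 : m ≤ (a + 1) * ((1 + 2 * ε') * M))
    (f7 : 0 ≤ 2 * a - 1) : (2 - ε) * m ≤ (2 * a - 1) * ((1 - ε') * M) := by
  have g1 : 2 * m ≤ ((2 * a - 1) * M) * (1 + 2 * ε') + 3 * M * (1 + 2 * ε') := by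
    linarith
  have g3 : (1 + 2 * ε') * (1 - 2 * ε') ≤ 1 := by nlinarith [sq_nonneg ε']
  have g4 : 0 ≤ (2 * a - 1) * M + 3 * M := by
    have := mul_nonneg f7 (by linarith : (0:ℝ) ≤ M)
    linarith
  have g5 : 0 ≤ 1 - 2 * ε' := by linarith
  have g2 : 2 * m * (1 - 2 * ε') ≤ ((2 * a - 1) * M) + 3 * M := by
    have g6 := mul_le_mul_of_nonneg_right g1 g5
    have g7 : (((2 * a - 1) * M) * (1 + 2 * ε') + 3 * M * (1 + 2 * ε')) * (1 - 2 * ε') =
      ((2 * a - 1) * M + 3 * M) * ((1 + 2 * ε') * (1 - 2 * ε')) := by ring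
    rw [g7] at g6
    exact g6.trans (mul_le_of_le_one_right g4 g3)
  have g8 : 2 * m * (1 - 2 * ε') - ε' * m ≤ (2 * a - 1) * M := by linarith
  have g9 : (2 * m * (1 - 2 * ε') - ε' * m) * (1 - ε') ≤
      ((2 * a - 1) * M) * (1 - ε') :=
    mul_le_mul_of_nonneg_right g8 (by linarith)
  have g10 : (2 - ε) * m ≤ (2 * m * (1 - 2 * ε') - ε' * m) * (1 - ε') := by
    have : (2 * m * (1 - 2 * ε') - ε' * m) * (1 - ε') =
      (2 - 7 * ε' + 5 * ε' ^ 2) * m := by ring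
    rw [this]
    apply mul_le_mul_of_nonneg_right _ hm.le
    have := sq_nonneg ε'
    linarith
  linarith

theorem num : S_NUM := by
  classical
  intro hsys hfin D hD ε hε
  set ε' : ℝ := min ε 1 / 12 with hε'
  have hmin : 0 < min ε 1 := lt_min hε one_pos
  have e1 : 0 < ε' := by positivity
  have e2 : 12 * ε' ≤ ε := by rw [hε']; linarith [min_le_left ε 1]
  have e3 : 12 * ε' ≤ 1 := by rw [hε']; linarith [min_le_right ε 1]
  obtain ⟨ι, hι, s, t, k₁, y, S, E₁, E₂, hyS, h1, h2, hd, hc1, hc2, hcι⟩ := hsys D hD ε' e1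
  have hD2 : (2:ℝ) ≤ D := by exact_mod_cast hD
  set M : ℕ := k₁ + 1 with hM
  have hM1 : (1:ℝ) ≤ M := by rw [hM]; push_cast; linarith [(Nat.cast_nonneg k₁ : (0:ℝ) ≤ k₁)]
  have hMk : (k₁ : ℝ) + 1 = M := by rw [hM]; push_cast; ring
  rw [hMk] at hc1 hc2 hcι
  have hne : Nonempty ι := by
    have h3 : 0 < (1 - ε') * (M:ℝ) := mul_pos (by linarith) (by linarith)
    have h4 : 0 < (E₁.card : ℝ) := lt_of_lt_of_le h3 hc1
    have h5 : 0 < E₁.card := by exact_mod_cast h4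
    obtain ⟨e, -⟩ := Finset.card_pos.mp h5
    exact ⟨e.1⟩
  have hdisj : Disjoint E₁ E₂ := by
    rw [Finset.disjoint_left]
    intro r hr1 hr
    have h3 := (h1 r hr1).2.2
    have h4 := (h2 r hr).2
    linarith
  have hEc : (1 - ε') * ((D:ℝ) - 1) * M ≤ ((E₁ ∪ E₂).card : ℝ) := by
    rw [Finset.card_union_of_disjoint hdisj]
    push_cast
    have : (1 - ε') * ((D:ℝ) - 1) * M = (1 - ε') * M + ((D:ℝ) - 2) * (1 - ε') * M := by ring
    rw [this]
    exact add_le_add hc1 hc2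
  obtain ⟨k₀, hk₀⟩ : ∃ k₀ : ℕ, 3 * M / ε' ≤ k₀ := exists_nat_ge _
  have hk₀' : 3 * (M:ℝ) ≤ ε' * k₀ := by
    rw [div_le_iff₀ e1] at hk₀
    linarith
  refine ⟨k₀, fun n k h3 h4 => ?_⟩
  set m : ℕ := min k (n - k) with hm
  have hmk : m ≤ k := min_le_left _ _
  have hmn : m ≤ n - k := min_le_right _ _
  have hm0 : k₀ ≤ m := by rw [hm]; omega
  have hm0' : (k₀:ℝ) ≤ m := by exact_mod_cast hm0
  have hm3 : 3 * (M:ℝ) ≤ ε' * m := hk₀'.trans (mul_le_mul_of_nonneg_left hm0' e1.le)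
  have hmpos : (0:ℝ) < m := by nlinarith
  set a : ℕ := ⌊(m:ℝ) / ((1 + 2 * ε') * M)⌋₊ with ha
  have hden : 0 < (1 + 2 * ε') * (M:ℝ) := by nlinarith
  have ha1 : (a:ℝ) ≤ m / ((1 + 2 * ε') * M) := Nat.floor_le (by positivity)
  have ha2 : (m:ℝ) / ((1 + 2 * ε') * M) < a + 1 := Nat.lt_floor_add_one _
  rw [le_div_iff₀ hden] at ha1
  rw [div_lt_iff₀ hden] at ha2
  have haM : (a:ℝ) * M * (1 + 2 * ε') ≤ m := by linarith
  have haM0 : (0:ℝ) ≤ a * M := by positivity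
  have haM1 : (a:ℝ) * M ≤ m := by nlinarith
  have ha3 : 1 ≤ a := by
    by_contra h
    have h5 : a = 0 := by omega
    rw [h5] at ha2
    push_cast at ha2
    nlinarith
  have hl1 : a * (k₁ + 1) ≤ k := by
    have : a * M ≤ m := by exact_mod_cast haM1
    rw [← hM]
    omega
  have hl2 : a * Fintype.card ι + (k - a * (k₁ + 1)) ≤ n := by
    have h5 : a * Fintype.card ι ≤ a * M + m := by
      have h6 : (a:ℝ) * Fintype.card ι ≤ a * M + m := by
        calc (a:ℝ) * Fintype.card ι ≤ a * (2 * (1 + ε') * M) :=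
              mul_le_mul_of_nonneg_left hcι (by positivity)
          _ = a * M + a * M * (1 + 2 * ε') := by ring
          _ ≤ _ := by linarith
      exact_mod_cast h6
    rw [← hM] at hl1 ⊢
    omega
  obtain ⟨Γ, f1, f2, f3, f4⟩ := hfin ι s t k₁ (E₁ ∪ E₂) a n k hne (by
    intro e he
    rcases Finset.mem_union.mp he with h | h
    · exact (h1 e h).1
    · exact (h2 e h).1) ha3 hl1 hl2
  refine ⟨Γ, f1, f2.trans ?_, f3, ?_⟩
  · exact le_trans (le_of_eq (by congr)) hd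
  · have f5 : (((2 * a - 1) * (E₁ ∪ E₂).card : ℕ) : ℝ) ≤ complexity Γ k := by exact_mod_cast f4
    refine le_trans ?_ f5
    have f6 : (((2 * a - 1 : ℕ)) : ℝ) = 2 * a - 1 := by
      rw [Nat.cast_sub (by omega)]
      push_cast
      ring
    rw [Nat.cast_mul, f6]
    have f7 : (0:ℝ) ≤ 2 * a - 1 := by
      have : (1:ℝ) ≤ a := by exact_mod_cast ha3
      linarith
    have hD1 : (0:ℝ) ≤ (D:ℝ) - 1 := by linarith
    calc (2 - ε) * ((D:ℝ) - 1) * m = ((D:ℝ) - 1) * ((2 - ε) * m) := by ring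
      _ ≤ ((D:ℝ) - 1) * ((2 * a - 1) * ((1 - ε') * M)) := by
          apply mul_le_mul_of_nonneg_left _ hD1
          exact arith ε ε' m M a e1 e2 e3 hM1 hmpos hm3 (by linarith) f7
      _ = (2 * a - 1) * ((1 - ε') * ((D:ℝ) - 1) * M) := by ring
      _ ≤ _ := mul_le_mul_of_nonneg_left hEc f7

end Pool.Agent.Helper48K9.FD
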