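import Pool.Agent.Helper48K9.FD.Defs2
import Pool.Agent.Helper48K9.FD.Num

/-!
# The uniform asymptotic form
-/

set_option autoImplicit false

namespace Pool.Agent.Helper48K9.FD

open Finset Filter Topology KLev.Levels

theorem mnum : S_MNUM := by
  classical
  intro hsys hfin ε hε
  set ε' : ℝ := min ε 1 / 12 with hε'
  have hmin : 0 < min ε 1 := lt_min hε one_pos
  have e1 : 0 < ε' := by positivity
  have e2 : 12 * ε' ≤ ε := by rw [hε']; linarith [min_le_left ε 1]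
  have e3 : 12 * ε' ≤ 1 := by rw [hε']; linarith [min_le_right ε 1]
  obtain ⟨C₀, hC₀, hsys'⟩ := hsys ε' e1 (by linarith)
  obtain ⟨B, hB⟩ : ∃ B : ℕ, 3 / ε' ≤ B := exists_nat_ge _
  have hB' : 3 ≤ ε' * (B:ℝ) := by
    rw [div_le_iff₀ e1] at hB
    linarith
  have hB1 : 1 ≤ B := by
    by_contra h
    have : B = 0 := by omega
    rw [this] at hB'
    norm_num at hB'
  refine ⟨B * C₀, fun D hD n k h3 h4 => ?_⟩
  obtain ⟨M, m', N, ⟨ι, hι, Qt, hQt, s, t, k₁, lo, hi, E, hkM, hQc, hιc, hd, hEm, hEd, hE⟩,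
    hM1', hMC, hc, hcN⟩ := hsys' (D - 1) (by omega)
  have hD2 : (2:ℝ) ≤ D := by exact_mod_cast hD
  have hD1' : ((D - 1 : ℕ) : ℝ) = (D:ℝ) - 1 := by
    rw [Nat.cast_sub (by omega)]
    push_cast
    ring
  have hM1 : (1:ℝ) ≤ M := by exact_mod_cast hM1'
  have hcι : (Fintype.card ι : ℝ) ≤ 2 * (1 + ε') * M := by rw [hιc]; exact hcN
  have hιpos : Nonempty ι := by
    have h5 : 0 < (1 - ε') * (M:ℝ) := mul_pos (by linarith) (by linarith)
    have h6 : (0:ℝ) < m' := lt_of_lt_of_le h5 hc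
    have h7 : 0 < m' := by exact_mod_cast h6
    have h8 : 0 < Fintype.card Qt := by rw [hQc]; omega
    obtain ⟨q⟩ := Fintype.card_pos_iff.1 h8
    have h9 : 0 < (E q).card := by rw [hEm q]; exact h7
    obtain ⟨e, -⟩ := Finset.card_pos.1 h9
    exact ⟨e.1⟩
  set EE : Finset (ι × ι) := univ.biUnion E with hEE
  have hEEc : EE.card = (D - 1) * m' := by
    rw [hEE, card_biUnion (fun q _ q' _ hq => hEd q q' hq)]
    simp only [hEm, sum_const, card_univ, hQc, smul_eq_mul]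
  have hEc : (1 - ε') * ((D:ℝ) - 1) * M ≤ (EE.card : ℝ) := by
    rw [hEEc]
    push_cast
    rw [hD1']
    calc (1 - ε') * ((D:ℝ) - 1) * M = ((D:ℝ) - 1) * ((1 - ε') * M) := by ring
      _ ≤ _ := mul_le_mul_of_nonneg_left hc (by linarith)
  -- the threshold
  have hk₀ : B * M ≤ (B * C₀) ^ D := by
    calc B * M ≤ B ^ D * C₀ ^ D := by
          apply Nat.mul_le_mul
          · calc B = B ^ 1 := (pow_one B).symm
              _ ≤ B ^ D := Nat.pow_le_pow_right hB1 (by omega)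
          · exact hMC.trans (Nat.pow_le_pow_right hC₀ (by omega))
      _ = _ := (mul_pow _ _ _).symm
  have h3' : B * M ≤ k := hk₀.trans h3
  have h4' : k + B * M ≤ n := le_trans (by omega) h4
  have hk₀' : 3 * (M:ℝ) ≤ ε' * ((B * M : ℕ) : ℝ) := by
    push_cast
    have := mul_le_mul_of_nonneg_right hB' (by linarith : (0:ℝ) ≤ M)
    linarith
  set k₀ : ℕ := B * M with hk₀def
  set m : ℕ := min k (n - k) with hm
  have hmk : m ≤ k := min_le_left _ _
  have hmn : m ≤ n - k := min_le_right _ _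
  have hm0 : k₀ ≤ m := by rw [hm]; omega
  have hm0' : (k₀:ℝ) ≤ m := by exact_mod_cast hm0
  have hm3 : 3 * (M:ℝ) ≤ ε' * m := hk₀'.trans (mul_le_mul_of_nonneg_left hm0' e1.le)
  have hmpos : (0:ℝ) < m := by nlinarith
  set a : ℕ := ⌊(m:ℝ) / ((1 + 2 * ε') * M)⌋₊ with ha
  have hden : 0 < (1 + 2 * ε') * (M:ℝ) := by nlinarith
  have ha1 : (a:ℝ) ≤ m / ((1 + 2 * ε') * M) := Nat.floor_le (by positivity)
  have ha2 : (m:ℝ) / ((1 + 2 * ε') * M) < a + 1 := Nat.lt_floor_add_one _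
  rw [le_div_iff₀ hden] at ha1
  rw [div_lt_iff₀ hden] at ha2
  have haM : (a:ℝ) * M * (1 + 2 * ε') ≤ m := by linarith
  have haM0 : (0:ℝ) ≤ a * M := by positivity
  have haM1 : (a:ℝ) * M ≤ m := by nlinarith
  have ha3 : 1 ≤ a := by
    by_contra h
    have h5 : a = 0 := by omega
    rw [h5] at ha2
    push_cast at ha2
    nlinarith
  have hl1 : a * (k₁ + 1) ≤ k := by
    have : a * M ≤ m := by exact_mod_cast haM1
    rw [hkM]
    omega
  have hl2 : a * Fintype.card ι + (k - a * (k₁ + 1)) ≤ n := by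
    have h5 : a * Fintype.card ι ≤ a * M + m := by
      have h6 : (a:ℝ) * Fintype.card ι ≤ a * M + m := by
        calc (a:ℝ) * Fintype.card ι ≤ a * (2 * (1 + ε') * M) :=
              mul_le_mul_of_nonneg_left hcι (by positivity)
          _ = a * M + a * M * (1 + 2 * ε') := by ring
          _ ≤ _ := by linarith
      exact_mod_cast h6
    rw [hkM] at hl1 ⊢
    omega
  obtain ⟨Γ, f1, f2, f3, f4⟩ := hfin ι s t k₁ EE a n k hιpos (by
    intro e he
    obtain ⟨q, -, hq⟩ := Finset.mem_biUnion.mp he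
    exact (hE q e hq).1) ha3 hl1 hl2
  refine ⟨Γ, f1, f2.trans ?_, f3, ?_⟩
  · have h5 : D - 1 + 1 = D := by omega
    rw [h5] at hd
    exact le_trans (le_of_eq (by congr)) hd
  · have f5 : (((2 * a - 1) * EE.card : ℕ) : ℝ) ≤ complexity Γ k := by exact_mod_cast f4
    refine le_trans ?_ f5
    have f6 : (((2 * a - 1 : ℕ)) : ℝ) = 2 * a - 1 := by
      rw [Nat.cast_sub (by omega)]
      push_cast
      ring
    rw [Nat.cast_mul, f6]
    have f7 : (0:ℝ) ≤ 2 * a - 1 := by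
      have : (1:ℝ) ≤ a := by exact_mod_cast ha3
      linarith
    have hD1 : (0:ℝ) ≤ (D:ℝ) - 1 := by linarith
    calc (2 - ε) * ((D:ℝ) - 1) * m = ((D:ℝ) - 1) * ((2 - ε) * m) := by ring
      _ ≤ ((D:ℝ) - 1) * ((2 * a - 1) * ((1 - ε') * M)) := by
          apply mul_le_mul_of_nonneg_left _ hD1
          exact arith ε ε' m M a e1 e2 e3 hM1 hmpos hm3 (by linarith) f7
      _ = (2 * a - 1) * ((1 - ε') * ((D:ℝ) - 1) * M) := by ring
      _ ≤ _ := mul_le_mul_of_nonneg_left hEc f7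

end Pool.Agent.Helper48K9.FD
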