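import Pool.Agent.Helper48K9.FD.Defs

/-! # [PAD] -/

namespace Pool.Agent.Helper48K9.FD

open Finset Filter Topology KLev.Levels

/-- [PAD] -/
theorem pad : S_PAD := by
  classical
  intro κ _ s t F lev s₀ p q hF
  obtain ⟨T, hT⟩ : ∃ T : ℝ, ∀ e ∈ F, |py s t e - s₀ * px s t e| < T := by
    refine ⟨∑ e ∈ F, |py s t e - s₀ * px s t e| + 1, fun e he => ?_⟩
    have h1 := Finset.single_le_sum (f := fun e => |py s t e - s₀ * px s t e|)
      (fun _ _ => abs_nonneg _) he
    linarith
  refine ⟨T, fun e he => ?_⟩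
  have hev := hF e he
  have hTe := abs_lt.mp (hT e he)
  have hpx : px (Sum.elim s (fun _ : Fin p ⊕ Fin q => s₀))
      (Sum.elim t (Sum.elim (fun _ => T) (fun _ => -T))) (Sum.inl e.1, Sum.inl e.2) =
      px s t e := rfl
  have hpy : py (Sum.elim s (fun _ : Fin p ⊕ Fin q => s₀))
      (Sum.elim t (Sum.elim (fun _ => T) (fun _ => -T))) (Sum.inl e.1, Sum.inl e.2) =
      py s t e := rfl
  refine ⟨hev.lt, ?_, ?_⟩
  · rintro (c | c | c) h1 h2
    · rw [hpx, hpy]
      exact hev.off c (fun h => h1 (by rw [h])) (fun h => h2 (by rw [h]))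
    · rw [hpx, hpy]
      simp only [Sum.elim_inr, Sum.elim_inl]
      intro h
      linarith [hTe.2]
    · rw [hpx, hpy]
      simp only [Sum.elim_inr]
      intro h
      linarith [hTe.1]
  · rw [hpx, hpy]
    have e1 : ¬ (s₀ * px s t e + T < py s t e) := by linarith [hTe.2]
    have e2 : s₀ * px s t e + -T < py s t e := by linarith [hTe.1]
    rw [← hev.card, Finset.card_filter, Finset.card_filter, Fintype.sum_sum_type,
      Fintype.sum_sum_type]
    simp only [Sum.elim_inl, Sum.elim_inr, e1, e2, if_true, if_false]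
    simp only [Finset.sum_const_zero, zero_add, Finset.sum_const, Finset.card_univ,
      Fintype.card_fin, smul_eq_mul, mul_one]
    refine congrArg (· + q) (Finset.sum_congr rfl fun i _ => ?_)
    congr

end Pool.Agent.Helper48K9.FD
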