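import Pool.Agent.Helper48K9.FD.Defs

/-! # [PERT] -/

namespace Pool.Agent.Helper48K9.FD

open Finset Filter Topology KLev.Levels

/-- [PERT] -/
theorem pert : S_PERT := by
  classical
  intro κ _ s t T k e he hT
  have hpx : Tendsto (fun z => px s (T z) e) (𝓝[>] (0:ℝ)) (𝓝 (px s t e)) := by
    unfold px
    exact ((hT e.2).sub (hT e.1)).div_const _
  have hpy : Tendsto (fun z => py s (T z) e) (𝓝[>] (0:ℝ)) (𝓝 (py s t e)) := by
    unfold py
    exact (hpx.const_mul _).add (hT e.1)
  have hln : ∀ c, Tendsto (fun z => s c * px s (T z) e + T z c) (𝓝[>] (0:ℝ))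
      (𝓝 (s c * px s t e + t c)) := fun c => (hpx.const_mul _).add (hT c)
  have hd : ∀ (t : κ → ℝ), s e.1 * px s t e + t e.1 = py s t e := fun t => rfl
  have hd2 : ∀ (t : κ → ℝ), s e.2 * px s t e + t e.2 = py s t e := by
    intro t
    have h1 : s e.1 - s e.2 ≠ 0 := by
      have := he.lt
      linarith
    unfold py px
    field_simp
    ring
  have key : ∀ᶠ z in 𝓝[>] (0:ℝ), ∀ c : κ, (c ≠ e.1 → c ≠ e.2 →
      s c * px s (T z) e + T z c ≠ py s (T z) e) ∧
      (s c * px s (T z) e + T z c < py s (T z) e ↔ s c * px s t e + t c < py s t e) := by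
    rw [eventually_all]
    intro c
    by_cases hc1 : c = e.1
    · refine Eventually.of_forall fun z => ⟨fun h => absurd hc1 h, ?_⟩
      rw [hc1, hd, hd]
      simp
    by_cases hc2 : c = e.2
    · refine Eventually.of_forall fun z => ⟨fun _ h => absurd hc2 h, ?_⟩
      rw [hc2, hd2, hd2]
      simp
    rcases lt_or_gt_of_ne (he.off c hc1 hc2) with h | h
    · filter_upwards [(hln c).eventually_lt hpy h] with z hz
      exact ⟨fun _ _ => hz.ne, ⟨fun _ => h, fun _ => hz⟩⟩
    · filter_upwards [hpy.eventually_lt (hln c) h] with z hz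
      exact ⟨fun _ _ => hz.ne', ⟨fun h' => absurd h' (not_lt.2 hz.le),
        fun h' => absurd h' (not_lt.2 h.le)⟩⟩
  filter_upwards [key] with z hz
  refine ⟨he.lt, fun c hc1 hc2 => (hz c).1 hc1 hc2, ?_⟩
  rw [← he.card]
  congr 1
  ext c
  simp only [mem_filter, mem_univ, true_and]
  exact (hz c).2

end Pool.Agent.Helper48K9.FD
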