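import Pool.Agent.Helper48K9.FD.Defs

/-! # [VTX] -/

namespace Pool.Agent.Helper48K9.FD

open Finset Filter Topology KLev.Levels

namespace VtxL

variable {κ : Type} [Fintype κ] {s t : κ → ℝ} {j : ℕ} {e : κ × κ}

omit [Fintype κ] in
theorem tie1 (e : κ × κ) : s e.1 * px s t e + t e.1 = py s t e := rfl

omit [Fintype κ] in
theorem tie2 (h : s e.2 < s e.1) : s e.2 * px s t e + t e.2 = py s t e := by
  have h1 : s e.1 - s e.2 ≠ 0 := by linarith
  unfold py px
  field_simp
  ring

theorem near (he : Evt s t j e) : ∀ᶠ x in 𝓝 (px s t e), ∀ c, c ≠ e.1 → c ≠ e.2 →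
    (s c * x + t c < s e.1 * x + t e.1 ↔ s c * px s t e + t c < py s t e) ∧
    (s c * x + t c < s e.2 * x + t e.2 ↔ s c * px s t e + t c < py s t e) := by
  have hcont : ∀ i, Continuous (fun x : ℝ => s i * x + t i) := by
    intro i
    fun_prop
  rw [eventually_all]
  intro c
  by_cases hca : c = e.1
  · exact Filter.Eventually.of_forall (fun _ h => absurd hca h)
  by_cases hcb : c = e.2
  · exact Filter.Eventually.of_forall (fun _ _ h => absurd hcb h)
  have hne := he.off c hca hcb
  have t1 := tie1 (s := s) (t := t) e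
  have t2 := tie2 (s := s) (t := t) he.lt
  rcases lt_or_gt_of_ne hne with h | h
  · filter_upwards [(hcont c).continuousAt.eventually_lt (hcont e.1).continuousAt
        (by rw [t1]; exact h),
      (hcont c).continuousAt.eventually_lt (hcont e.2).continuousAt (by rw [t2]; exact h)]
      with x h1 h2 _ _
    exact ⟨⟨fun _ => h, fun _ => h1⟩, ⟨fun _ => h, fun _ => h2⟩⟩
  · filter_upwards [(hcont e.1).continuousAt.eventually_lt (hcont c).continuousAt
        (by rw [t1]; exact h),
      (hcont e.2).continuousAt.eventually_lt (hcont c).continuousAt (by rw [t2]; exact h)]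
      with x h1 h2 _ _
    exact ⟨⟨fun h3 => absurd h3 (not_lt.mpr h1.le), fun h3 => absurd h3 (not_lt.mpr h.le)⟩,
      ⟨fun h3 => absurd h3 (not_lt.mpr h2.le), fun h3 => absurd h3 (not_lt.mpr h.le)⟩⟩

open scoped Classical in
/-- the level of a point on a line -/
theorem lev (hinj : Function.Injective (fun i : κ => (s i, t i))) (p : ℝ × ℝ) :
    level ((univ : Finset κ).image (fun i : κ => (s i, t i))) p =
      ((univ : Finset κ).filter (fun i => s i * p.1 + t i < p.2)).card := by
  unfold level
  rw [Finset.filter_image, Finset.card_image_of_injective _ hinj]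
  rfl

open scoped Classical in
theorem vertex (hinj : Function.Injective (fun i : κ => (s i, t i))) (he : Evt s t j e) :
    IsVertex ((univ : Finset κ).image (fun i : κ => (s i, t i))) j (px s t e, py s t e) ∧
    IsVertex ((univ : Finset κ).image (fun i : κ => (s i, t i))) (j + 1)
      (px s t e, py s t e) := by
  set Γ := (univ : Finset κ).image (fun i : κ => (s i, t i)) with hΓ
  have hmem : ∀ i, (s i, t i) ∈ Γ := fun i => Finset.mem_image_of_mem _ (Finset.mem_univ i)
  obtain ⟨δ, hδ, hball⟩ := Metric.eventually_nhds_iff.mp (near he)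
  have t1 := tie1 (s := s) (t := t) e
  have t2 := tie2 (s := s) (t := t) he.lt
  have hs := he.lt
  have hcard := he.card
  set A : Finset κ := univ.filter (fun c => s c * px s t e + t c < py s t e) with hA
  have hA1 : e.1 ∉ A := by
    simp only [hA, mem_filter, mem_univ, true_and]
    linarith
  have hA2 : e.2 ∉ A := by
    simp only [hA, mem_filter, mem_univ, true_and]
    linarith
  have hne : e.1 ≠ e.2 := by
    intro h
    rw [h] at hs
    exact lt_irrefl _ hs
  have hAm : ∀ c, c ∈ A ↔ s c * px s t e + t c < py s t e := by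
    intro c
    simp [hA]
  -- left of the point
  have hL1 : ∀ x, px s t e - δ < x → x < px s t e →
      (univ : Finset κ).filter (fun c => s c * x + t c < s e.1 * x + t e.1) = A := by
    intro x hx1 hx2
    have hx : dist x (px s t e) < δ := by rw [Real.dist_eq, abs_lt]; constructor <;> linarith
    ext c
    simp only [mem_filter, mem_univ, true_and]
    by_cases hc1 : c = e.1
    · subst hc1
      simp [hA1]
    by_cases hc2 : c = e.2
    · subst hc2
      simp only [hA2, iff_false, not_lt]
      nlinarith
    · rw [(hball hx c hc1 hc2).1, hAm]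
  have hL2 : ∀ x, px s t e - δ < x → x < px s t e →
      (univ : Finset κ).filter (fun c => s c * x + t c < s e.2 * x + t e.2) = insert e.1 A := by
    intro x hx1 hx2
    have hx : dist x (px s t e) < δ := by rw [Real.dist_eq, abs_lt]; constructor <;> linarith
    ext c
    simp only [mem_filter, mem_univ, true_and, mem_insert]
    by_cases hc1 : c = e.1
    · subst hc1
      simp only [true_or, iff_true]
      nlinarith
    by_cases hc2 : c = e.2
    · subst hc2
      simp [hA2, hne.symm]
    · rw [(hball hx c hc1 hc2).2, hAm]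
      simp [hc1]
  have hR2 : ∀ x, px s t e < x → x < px s t e + δ →
      (univ : Finset κ).filter (fun c => s c * x + t c < s e.2 * x + t e.2) = A := by
    intro x hx1 hx2
    have hx : dist x (px s t e) < δ := by rw [Real.dist_eq, abs_lt]; constructor <;> linarith
    ext c
    simp only [mem_filter, mem_univ, true_and]
    by_cases hc1 : c = e.1
    · subst hc1
      simp only [hA1, iff_false, not_lt]
      nlinarith
    by_cases hc2 : c = e.2
    · subst hc2
      simp [hA2]
    · rw [(hball hx c hc1 hc2).2, hAm]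
  have hR1 : ∀ x, px s t e < x → x < px s t e + δ →
      (univ : Finset κ).filter (fun c => s c * x + t c < s e.1 * x + t e.1) = insert e.2 A := by
    intro x hx1 hx2
    have hx : dist x (px s t e) < δ := by rw [Real.dist_eq, abs_lt]; constructor <;> linarith
    ext c
    simp only [mem_filter, mem_univ, true_and, mem_insert]
    by_cases hc1 : c = e.1
    · subst hc1
      simp [hA1, hne]
    by_cases hc2 : c = e.2
    · subst hc2
      simp only [true_or, iff_true]
      nlinarith
    · rw [(hball hx c hc1 hc2).1, hAm]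
      simp [hc2]
  have hne' : (s e.1, t e.1) ≠ (s e.2, t e.2) := fun h => hne (hinj h)
  refine ⟨⟨_, hmem e.1, _, hmem e.2, hne', t1, t2, δ, hδ, ?_, ?_⟩,
    ⟨_, hmem e.2, _, hmem e.1, hne'.symm, t2, t1, δ, hδ, ?_, ?_⟩⟩
  · intro x hx1 hx2
    apply subset_closure
    refine ⟨⟨_, hmem e.1, rfl⟩, ?_⟩
    rw [lev hinj]
    exact (congrArg Finset.card (hL1 x hx1 hx2)).trans hcard
  · intro x hx1 hx2
    apply subset_closure
    refine ⟨⟨_, hmem e.2, rfl⟩, ?_⟩
    rw [lev hinj]
    exact (congrArg Finset.card (hR2 x hx1 hx2)).trans hcard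
  · intro x hx1 hx2
    apply subset_closure
    refine ⟨⟨_, hmem e.2, rfl⟩, ?_⟩
    rw [lev hinj]
    refine (congrArg Finset.card (hL2 x hx1 hx2)).trans ?_
    rw [Finset.card_insert_of_notMem hA1, hcard]
  · intro x hx1 hx2
    apply subset_closure
    refine ⟨⟨_, hmem e.1, rfl⟩, ?_⟩
    rw [lev hinj]
    refine (congrArg Finset.card (hR1 x hx1 hx2)).trans ?_
    rw [Finset.card_insert_of_notMem hA2, hcard]

end VtxL

/-- [VTX] -/
theorem vtx (hI : S_INJ) : S_VTX := by
  classical
  intro κ _ s t k F₀ F₁ hinj h0 h1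
  have hdisj : Disjoint F₀ F₁ := by
    rw [Finset.disjoint_left]
    intro e he he'
    have := (h0 e he).card.symm.trans (h1 e he').card
    omega
  set P : κ × κ → ℝ × ℝ := fun e => (px s t e, py s t e) with hP
  have hev : ∀ e ∈ F₀ ∪ F₁, ∃ j, Evt s t j e := by
    intro e he
    rcases Finset.mem_union.1 he with he | he
    · exact ⟨_, h0 e he⟩
    · exact ⟨_, h1 e he⟩
  have hPinj : Set.InjOn P (F₀ ∪ F₁ : Finset (κ × κ)) := by
    intro e he e' he' hee
    obtain ⟨j, hj⟩ := hev e he
    obtain ⟨j', hj'⟩ := hev e' he'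
    exact hI κ s t j j' e e' hj hj' (congrArg Prod.fst hee) (congrArg Prod.snd hee)
  rw [← Finset.card_union_of_disjoint hdisj, ← Finset.card_image_of_injOn hPinj,
    ← Set.ncard_coe_finset]
  unfold complexity
  refine Set.ncard_le_ncard ?_ (vertices_finite _ _)
  intro q hq
  rw [Finset.mem_coe, Finset.mem_image] at hq
  obtain ⟨e, he, rfl⟩ := hq
  rcases Finset.mem_union.1 he with he | he
  · exact (VtxL.vertex hinj (h0 e he)).1
  · exact (VtxL.vertex hinj (h1 e he)).2

end Pool.Agent.Helper48K9.FD
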