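import Pool.Agent.Helper48K9.FD.MStep
import Pool.Agent.Helper48K9.FD.MCnt
import Pool.Agent.Helper48K9.FD.MGen
import Pool.Agent.Helper48K9.FD.Mit
import Pool.Agent.Helper48K9.FD.Mnum
import Pool.Agent.Helper48K9.FD.Fin
import Pool.Agent.Helper48K9.FD.Loc
import Pool.Agent.Helper48K9.FD.Inj
import Pool.Agent.Helper48K9.FD.Pert
import Pool.Agent.Helper48K9.FD.Pad
import Pool.Agent.Helper48K9.FD.Vtx
import Pool.Agent.Helper48K9.FD.Upp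

/-!
# Assembly
-/

namespace Pool.Agent.Helper48K9.FD

open KLev.Levels

theorem sharp (ε : ℝ) (hε : 0 < ε) : ∃ C : ℕ, ∀ D : ℕ, 2 ≤ D → ∀ n k : ℕ, C ^ D ≤ k →
    k + C ^ D ≤ n →
    ∃ Γ : Finset (ℝ × ℝ), Γ.card = n ∧ (open Classical in (Γ.image Prod.fst).card ≤ D) ∧
      Pool.Agent.Y375.FD.NoThree Γ ∧
      (2 - ε) * ((D:ℝ) - 1) * (min k (n - k) : ℕ) ≤ (complexity Γ k : ℝ) :=
  mnum (mit mbase (mstep (meva loc mcnt) (mevb loc mcnt) (mevc loc mcnt) (mgen inj)))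
    (fin_ (evc loc cnt) pad pert (vtx inj)) ε hε

theorem main (ε : ℝ) (hε : 0 < ε) : ∃ C : ℕ, ∀ D : ℕ, 2 ≤ D → ∀ n k : ℕ, C ^ D ≤ k →
    k + C ^ D ≤ n →
    (∀ Γ : Finset (ℝ × ℝ), Γ.card = n → (open Classical in (Γ.image Prod.fst).card) ≤ D →
      (complexity Γ k : ℝ) ≤ (2 + ε) * ((D:ℝ) - 1) * (min k (n - k) : ℕ)) ∧
    ∃ Γ : Finset (ℝ × ℝ), Γ.card = n ∧ (open Classical in (Γ.image Prod.fst).card ≤ D) ∧
      Pool.Agent.Y375.FD.NoThree Γ ∧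
      (2 - ε) * ((D:ℝ) - 1) * (min k (n - k) : ℕ) ≤ (complexity Γ k : ℝ) := by
  obtain ⟨C, hC⟩ := sharp ε hε
  obtain ⟨C', hC'⟩ := exists_nat_ge (1 / ε)
  refine ⟨C + C' + 1, fun D hD n k h1 h2 => ⟨?_, ?_⟩⟩
  · intro Γ hn hd
    refine upp ε hε (C + C' + 1) ?_ (by omega) D hD n k h1 h2 Γ hn hd
    push_cast
    have : (0:ℝ) ≤ C := Nat.cast_nonneg C
    linarith
  · have h3 : C ^ D ≤ (C + C' + 1) ^ D := Nat.pow_le_pow_left (by omega) D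
    exact hC D hD n k (h3.trans h1) ((Nat.add_le_add_left h3 k).trans h2)

end Pool.Agent.Helper48K9.FD
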