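import Pool.Agent.Helper48K9.FD.Defs

/-!
# Two crossing lines
-/

namespace Pool.Agent.Helper48K9.FD

open Finset Filter Topology KLev.Levels

theorem base : S_BASE := by
  classical
  intro ε hε
  refine ⟨Bool, inferInstance, fun b => if b then 1 else -1, fun _ => 0, 0, -1, 1,
    {(true, false)}, ∅, by norm_num, ?_, ?_, ?_, ?_, ?_, ?_⟩
  · intro e he
    rw [Finset.mem_singleton] at he
    subst he
    refine ⟨⟨by norm_num, ?_, ?_⟩, by norm_num, by norm_num⟩
    · intro c h1 h2
      cases c
      · exact absurd rfl h2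
      · exact absurd rfl h1
    · rw [Finset.card_eq_zero, Finset.filter_eq_empty_iff]
      intro c _
      simp [px, py]
  · intro e he
    exact absurd he (Finset.notMem_empty e)
  · exact (Finset.card_image_le).trans (by simp)
  · simp
    linarith
  · simp
  · simp
    linarith

theorem gen (hI : S_INJ) : S_GEN := by
  classical
  intro ι _ s t k R E y S hR hE hyS
  set B : Finset ℝ := (E ×ˢ R).image (fun z => (py s t z.2 - py s t z.1) /
    (px s t z.2 - px s t z.1)) with hB
  obtain ⟨p, hp, hpB⟩ := (Set.Ioo_infinite hyS).exists_notMem_finset B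
  refine ⟨p, hp.1, hp.2, ?_⟩
  intro r hr r' hr' hne h
  by_cases hx : px s t r' = px s t r
  · rw [hx] at h
    exact hne (hI ι s t k k r' r (hR r' hr') (hE r hr) hx (by linarith))
  · apply hpB
    rw [hB, Finset.mem_image]
    refine ⟨(r, r'), Finset.mem_product.mpr ⟨hr, hr'⟩, ?_⟩
    show (py s t r' - py s t r) / (px s t r' - px s t r) = p
    rw [div_eq_iff (sub_ne_zero.mpr hx)]
    linarith

end Pool.Agent.Helper48K9.FD
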