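import Pool.Agent.Y375.FD.Low

/-!
# Levels of line arrangements with few directions: definitions and the statements of the steps

A line system is a family `s, t : κ → ℝ` (slopes and intercepts), indexed by a finite type.
-/

namespace Pool.Agent.Helper48K9.FD

open Finset Filter Topology KLev.Levels

/-- abscissa of the crossing point of the lines `e.1` and `e.2` -/
noncomputable def px {κ : Type} (s t : κ → ℝ) (e : κ × κ) : ℝ := (t e.2 - t e.1) / (s e.1 - s e.2)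

/-- ordinate of the crossing point of the lines `e.1` and `e.2` -/
noncomputable def py {κ : Type} (s t : κ → ℝ) (e : κ × κ) : ℝ := s e.1 * px s t e + t e.1

/-- `e = (u, v)` is an event at level `k`: `u` is steeper than `v`, no other line passes through
their common point, and exactly `k` lines pass strictly below it. -/
structure Evt {κ : Type} [Fintype κ] (s t : κ → ℝ) (k : ℕ) (e : κ × κ) : Prop where
  lt : s e.2 < s e.1
  off : ∀ c, c ≠ e.1 → c ≠ e.2 → s c * px s t e + t c ≠ py s t e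
  card : (open Classical in (univ.filter (fun c => s c * px s t e + t c < py s t e)).card) = k

/-- slopes of the new system: every line `c` becomes a bundle `(c, i)`, `i < a`, and every
`r ∈ R` gets a new line of slope `p` -/
def ns {ι : Type} (R : Finset (ι × ι)) (a : ℕ) (s : ι → ℝ) (p : ℝ) : (ι × Fin a) ⊕ R → ℝ :=
  Sum.elim (fun c => s c.1) (fun _ => p)

/-- intercepts of the new system, order zero: the new line of `r` passes through the point of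
`r` -/
noncomputable def nt0 {ι : Type} (R : Finset (ι × ι)) (a : ℕ) (s t : ι → ℝ) (p : ℝ) :
    (ι × Fin a) ⊕ R → ℝ :=
  Sum.elim (fun c => t c.1) (fun r => py s t r.1 - p * px s t r.1)

/-- number of the new lines that pass below the point of `r` -/
noncomputable def rho {ι : Type} (R : Finset (ι × ι)) (s t : ι → ℝ) (p : ℝ) (r : ι × ι) : ℕ :=
  open Classical in
  (R.filter (fun r' => r' ≠ r ∧ py s t r' - p * px s t r' < py s t r - p * px s t r)).card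

/-- intercepts of the new system, order one -/
noncomputable def nt1 {ι : Type} (R : Finset (ι × ι)) (a : ℕ) (s t : ι → ℝ) (p : ℝ) (w : ι → ℝ) :
    (ι × Fin a) ⊕ R → ℝ :=
  Sum.elim (fun c => w c.1 * (c.2 : ℕ))
    (fun r => w r.1.1 * w r.1.2 / (s r.1.1 - s r.1.2) * ((a:ℝ) - rho R s t p r.1 - 3 / 2))

/-- `p` is generic for `R` and `r`: the point of `r` is on no new line of another event -/
def Gen {ι : Type} (R : Finset (ι × ι)) (s t : ι → ℝ) (p : ℝ) (r : ι × ι) : Prop :=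
  ∀ r' ∈ R, r' ≠ r → py s t r' - p * px s t r' ≠ py s t r - p * px s t r

/-- [LOC] events of a system `t0 + δ * t1` near a point of the system `t0` -/
def S_LOC : Prop := ∀ (κ : Type) [Fintype κ] (s t0 t1 : κ → ℝ) (k : ℕ) (e : κ × κ)
  (X Y x₁ y₁ : ℝ), s e.2 < s e.1 →
  s e.1 * X + t0 e.1 = Y → s e.2 * X + t0 e.2 = Y →
  s e.1 * x₁ + t1 e.1 = y₁ → s e.2 * x₁ + t1 e.2 = y₁ →
  (∀ c, c ≠ e.1 → c ≠ e.2 → s c * X + t0 c = Y → s c * x₁ + t1 c ≠ y₁) →
  (open Classical in (univ.filter (fun c => s c * X + t0 c < Y ∨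
    (s c * X + t0 c = Y ∧ s c * x₁ + t1 c < y₁))).card) = k →
  ∀ᶠ δ in 𝓝[>] (0:ℝ), Evt s (fun c => t0 c + δ * t1 c) k e

/-- [PERT] events are stable -/
def S_PERT : Prop := ∀ (κ : Type) [Fintype κ] (s t : κ → ℝ) (T : ℝ → κ → ℝ) (k : ℕ) (e : κ × κ),
  Evt s t k e → (∀ c, Tendsto (fun z => T z c) (𝓝[>] (0:ℝ)) (𝓝 (t c))) →
  ∀ᶠ z in 𝓝[>] (0:ℝ), Evt s (T z) k e

/-- [INJ] an event is determined by its point -/
def S_INJ : Prop := ∀ (κ : Type) [Fintype κ] (s t : κ → ℝ) (k k' : ℕ) (e e' : κ × κ),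
  Evt s t k e → Evt s t k' e' → px s t e = px s t e' → py s t e = py s t e' → e = e'

/-- [VTX] the events at level `k + 1` and those at level `k` are vertices of the `k+1`-level -/
def S_VTX : Prop := ∀ (κ : Type) [Fintype κ] (s t : κ → ℝ) (k : ℕ) (F₀ F₁ : Finset (κ × κ)),
  Function.Injective (fun i : κ => (s i, t i)) → (∀ e ∈ F₀, Evt s t (k + 1) e) →
  (∀ e ∈ F₁, Evt s t k e) →
  F₀.card + F₁.card ≤
    complexity (open Classical in (univ : Finset κ).image (fun i : κ => (s i, t i))) (k + 1)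

/-- [PAD] far away lines of slope `s₀` can be added above and below -/
def S_PAD : Prop := ∀ (κ : Type) [Fintype κ] (s t : κ → ℝ) (F : Finset (κ × κ))
  (lev : κ × κ → ℕ) (s₀ : ℝ) (p q : ℕ), (∀ e ∈ F, Evt s t (lev e) e) →
  ∃ T : ℝ, ∀ e ∈ F, Evt (Sum.elim s (fun _ : Fin p ⊕ Fin q => s₀))
    (Sum.elim t (Sum.elim (fun _ => T) (fun _ => -T))) (lev e + q) (Sum.inl e.1, Sum.inl e.2)

/-- [CNT] the number of lines below a point near the point of `r` -/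
def S_CNT : Prop := ∀ (ι : Type) [Fintype ι] (s t : ι → ℝ) (k : ℕ) (R : Finset (ι × ι)) (a : ℕ)
  (p : ℝ) (t1 : (ι × Fin a) ⊕ R → ℝ) (r : ι × ι) (x₁ y₁ : ℝ),
  Evt s t k r → Gen R s t p r →
  (∀ h : r ∈ R, ¬ (p * x₁ + t1 (Sum.inr ⟨r, h⟩) < y₁)) →
  (open Classical in (univ.filter (fun c => ns R a s p c * px s t r + nt0 R a s t p c < py s t r ∨
    (ns R a s p c * px s t r + nt0 R a s t p c = py s t r ∧
      ns R a s p c * x₁ + t1 c < y₁))).card) =
    a * k + rho R s t p r +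
      (open Classical in
        (univ.filter (fun i : Fin a => s r.1 * x₁ + t1 (Sum.inl (r.1, i)) < y₁)).card) +
      (open Classical in
        (univ.filter (fun j : Fin a => s r.2 * x₁ + t1 (Sum.inl (r.2, j)) < y₁)).card)

/-- [EVA] crossings of the new line with the steep bundle -/
def S_EVA : Prop := ∀ (ι : Type) [Fintype ι] (s t : ι → ℝ) (k : ℕ) (R : Finset (ι × ι)) (a : ℕ)
  (p : ℝ) (w : ι → ℝ) (r : ι × ι) (h : r ∈ R) (i : Fin a),
  Evt s t k r → Gen R s t p r → w r.1 = s r.1 - p → w r.2 = p - s r.2 → 0 < w r.1 → 0 < w r.2 →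
  (i : ℕ) + rho R s t p r < a →
  ∀ᶠ δ in 𝓝[>] (0:ℝ), Evt (ns R a s p) (fun c => nt0 R a s t p c + δ * nt1 R a s t p w c)
    (a * k + (a - 1)) (Sum.inl (r.1, i), Sum.inr ⟨r, h⟩)

/-- [EVB] crossings of the new line with the flat bundle -/
def S_EVB : Prop := ∀ (ι : Type) [Fintype ι] (s t : ι → ℝ) (k : ℕ) (R : Finset (ι × ι)) (a : ℕ)
  (p : ℝ) (w : ι → ℝ) (r : ι × ι) (h : r ∈ R) (j : Fin a),
  Evt s t k r → Gen R s t p r → w r.1 = s r.1 - p → w r.2 = p - s r.2 → 0 < w r.1 → 0 < w r.2 →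
  (j : ℕ) + rho R s t p r < a →
  ∀ᶠ δ in 𝓝[>] (0:ℝ), Evt (ns R a s p) (fun c => nt0 R a s t p c + δ * nt1 R a s t p w c)
    (a * k + (a - 1)) (Sum.inr ⟨r, h⟩, Sum.inl (r.2, j))

/-- [EVC] crossings inside the grid of an event without new line -/
def S_EVC : Prop := ∀ (ι : Type) [Fintype ι] (s t : ι → ℝ) (k : ℕ) (R : Finset (ι × ι)) (a : ℕ)
  (p : ℝ) (w : ι → ℝ) (r : ι × ι) (i j : Fin a),
  Evt s t k r → Gen R s t p r → 0 < w r.1 → 0 < w r.2 → r ∉ R →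
  ∀ᶠ δ in 𝓝[>] (0:ℝ), Evt (ns R a s p) (fun c => nt0 R a s t p c + δ * nt1 R a s t p w c)
    (a * k + rho R s t p r + i + j) (Sum.inl (r.1, i), Sum.inl (r.2, j))

/-- [GEN] there are generic slopes -/
def S_GEN : Prop := ∀ (ι : Type) [Fintype ι] (s t : ι → ℝ) (k : ℕ) (R E : Finset (ι × ι))
  (y S : ℝ), (∀ r ∈ R, Evt s t k r) → (∀ r ∈ E, Evt s t k r) → y < S →
  ∃ p, y < p ∧ p < S ∧ ∀ r ∈ E, Gen R s t p r

/-- systems with `D` slopes and almost the maximal number of events -/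
def HasSys (D : ℕ) (ε : ℝ) : Prop :=
  ∃ (ι : Type) (_ : Fintype ι) (s t : ι → ℝ) (k : ℕ) (y S : ℝ) (E₁ E₂ : Finset (ι × ι)),
    y < S ∧ (∀ e ∈ E₁, Evt s t k e ∧ s e.2 ≤ y ∧ S ≤ s e.1) ∧
    (∀ e ∈ E₂, Evt s t k e ∧ s e.1 ≤ y) ∧
    (open Classical in ((univ : Finset ι).image s).card) ≤ D ∧
    (1 - ε) * ((k:ℝ) + 1) ≤ (E₁.card : ℝ) ∧
    ((D:ℝ) - 2) * (1 - ε) * ((k:ℝ) + 1) ≤ (E₂.card : ℝ) ∧
    (Fintype.card ι : ℝ) ≤ 2 * (1 + ε) * ((k:ℝ) + 1)

/-- [BASE] two crossing lines -/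
def S_BASE : Prop := ∀ ε : ℝ, 0 < ε → HasSys 2 ε

/-- [STEP] one more slope -/
def S_STEP : Prop := ∀ D : ℕ, 2 ≤ D → (∀ ε : ℝ, 0 < ε → HasSys D ε) →
  ∀ ε : ℝ, 0 < ε → HasSys (D + 1) ε

/-- [FIN] bundling, padding and perturbing a system -/
def S_FIN : Prop := ∀ (ι : Type) [Fintype ι] (s t : ι → ℝ) (k : ℕ) (E : Finset (ι × ι)) (a : ℕ)
  (n l : ℕ), Nonempty ι → (∀ e ∈ E, Evt s t k e) → 1 ≤ a → a * (k + 1) ≤ l →
  a * Fintype.card ι + (l - a * (k + 1)) ≤ n →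
  ∃ Γ : Finset (ℝ × ℝ), Γ.card = n ∧
    (open Classical in (Γ.image Prod.fst).card ≤ ((univ : Finset ι).image s).card) ∧
    Pool.Agent.Y375.FD.NoThree Γ ∧ (2 * a - 1) * E.card ≤ complexity Γ l

/-- [NUM] the asymptotic form -/
def S_NUM : Prop := (∀ D : ℕ, 2 ≤ D → ∀ ε : ℝ, 0 < ε → HasSys D ε) → S_FIN →
  ∀ D : ℕ, 2 ≤ D → ∀ ε : ℝ, 0 < ε → ∃ k₀ : ℕ, ∀ n k : ℕ, k₀ ≤ k → k + k₀ ≤ n →
    ∃ Γ : Finset (ℝ × ℝ), Γ.card = n ∧ (open Classical in (Γ.image Prod.fst).card ≤ D) ∧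
      Pool.Agent.Y375.FD.NoThree Γ ∧
      (2 - ε) * ((D:ℝ) - 1) * (min k (n - k) : ℕ) ≤ (complexity Γ k : ℝ)

end Pool.Agent.Helper48K9.FD
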