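import Pool.Agent.Helper48K9.FD.Defs

/-!
# All gaps at once: definitions and statements

The new line of an event `r = (u, v)` gets the slope `(s u * w v + s v * w u) / (w u + w v)`,
which lies between `s v` and `s u`; the weights are `w c = exp (z * s c)` with a generic `z`.
-/

namespace Pool.Agent.Helper48K9.FD

open Finset Filter Topology KLev.Levels

/-- slope of the new line of the event `r` -/
noncomputable def sl {κ : Type} (s w : κ → ℝ) (r : κ × κ) : ℝ :=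
  (s r.1 * w r.2 + s r.2 * w r.1) / (w r.1 + w r.2)

/-- slopes of the new system -/
noncomputable def ms {ι : Type} (R : Finset (ι × ι)) (a : ℕ) (s w : ι → ℝ) :
    (ι × Fin a) ⊕ R → ℝ :=
  Sum.elim (fun c => s c.1) (fun r => sl s w r.1)

/-- intercepts of the new system, order zero: the new line of `r` passes through the point of
`r` -/
noncomputable def mt0 {ι : Type} (R : Finset (ι × ι)) (a : ℕ) (s t w : ι → ℝ) :
    (ι × Fin a) ⊕ R → ℝ :=
  Sum.elim (fun c => t c.1) (fun r => py s t r.1 - sl s w r.1 * px s t r.1)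

/-- number of the new lines that pass below the point of `r` -/
noncomputable def mrho {ι : Type} (R : Finset (ι × ι)) (s t w : ι → ℝ) (r : ι × ι) : ℕ :=
  open Classical in
  (R.filter (fun r' => r' ≠ r ∧
    sl s w r' * px s t r + (py s t r' - sl s w r' * px s t r') < py s t r)).card

/-- intercepts of the new system, order one -/
noncomputable def mt1 {ι : Type} (R : Finset (ι × ι)) (a : ℕ) (s t w : ι → ℝ) :
    (ι × Fin a) ⊕ R → ℝ :=
  Sum.elim (fun c => w c.1 * (c.2 : ℕ))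
    (fun r => w r.1.1 * w r.1.2 / (w r.1.1 + w r.1.2) * ((a:ℝ) - mrho R s t w r.1 - 3 / 2))

/-- `w` is generic for `R` and `r`: the point of `r` is on no new line of another event -/
def MGen {ι : Type} (R : Finset (ι × ι)) (s t w : ι → ℝ) (r : ι × ι) : Prop :=
  ∀ r' ∈ R, r' ≠ r → sl s w r' * px s t r + (py s t r' - sl s w r' * px s t r') ≠ py s t r

/-- [MCNT] the number of lines below a point near the point of `r` -/
def S_MCNT : Prop := ∀ (ι : Type) [Fintype ι] (s t w : ι → ℝ) (k : ℕ) (R : Finset (ι × ι))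
  (a : ℕ) (t1 : (ι × Fin a) ⊕ R → ℝ) (r : ι × ι) (x₁ y₁ : ℝ),
  Evt s t k r → MGen R s t w r →
  (∀ h : r ∈ R, ¬ (sl s w r * x₁ + t1 (Sum.inr ⟨r, h⟩) < y₁)) →
  (open Classical in (univ.filter (fun c => ms R a s w c * px s t r + mt0 R a s t w c < py s t r ∨
    (ms R a s w c * px s t r + mt0 R a s t w c = py s t r ∧
      ms R a s w c * x₁ + t1 c < y₁))).card) =
    a * k + mrho R s t w r +
      (open Classical in
        (univ.filter (fun i : Fin a => s r.1 * x₁ + t1 (Sum.inl (r.1, i)) < y₁)).card) +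
      (open Classical in
        (univ.filter (fun j : Fin a => s r.2 * x₁ + t1 (Sum.inl (r.2, j)) < y₁)).card)

/-- [MEVA] crossings of the new line with the steep bundle -/
def S_MEVA : Prop := ∀ (ι : Type) [Fintype ι] (s t w : ι → ℝ) (k : ℕ) (R : Finset (ι × ι))
  (a : ℕ) (r : ι × ι) (h : r ∈ R) (i : Fin a),
  Evt s t k r → MGen R s t w r → 0 < w r.1 → 0 < w r.2 →
  (i : ℕ) + mrho R s t w r < a →
  ∀ᶠ δ in 𝓝[>] (0:ℝ), Evt (ms R a s w) (fun c => mt0 R a s t w c + δ * mt1 R a s t w c)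
    (a * k + (a - 1)) (Sum.inl (r.1, i), Sum.inr ⟨r, h⟩)

/-- [MEVB] crossings of the new line with the flat bundle -/
def S_MEVB : Prop := ∀ (ι : Type) [Fintype ι] (s t w : ι → ℝ) (k : ℕ) (R : Finset (ι × ι))
  (a : ℕ) (r : ι × ι) (h : r ∈ R) (j : Fin a),
  Evt s t k r → MGen R s t w r → 0 < w r.1 → 0 < w r.2 →
  (j : ℕ) + mrho R s t w r < a →
  ∀ᶠ δ in 𝓝[>] (0:ℝ), Evt (ms R a s w) (fun c => mt0 R a s t w c + δ * mt1 R a s t w c)
    (a * k + (a - 1)) (Sum.inr ⟨r, h⟩, Sum.inl (r.2, j))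

/-- [MEVC] crossings inside the grid of an event without new line -/
def S_MEVC : Prop := ∀ (ι : Type) [Fintype ι] (s t w : ι → ℝ) (k : ℕ) (R : Finset (ι × ι))
  (a : ℕ) (r : ι × ι) (i j : Fin a),
  Evt s t k r → MGen R s t w r → 0 < w r.1 → 0 < w r.2 → r ∉ R →
  ∀ᶠ δ in 𝓝[>] (0:ℝ), Evt (ms R a s w) (fun c => mt0 R a s t w c + δ * mt1 R a s t w c)
    (a * k + mrho R s t w r + i + j) (Sum.inl (r.1, i), Sum.inl (r.2, j))

/-- [MGEN] there are generic weights of the form `exp (z * s c)` -/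
def S_MGEN : Prop := ∀ (ι : Type) [Fintype ι] (s t : ι → ℝ) (k : ℕ) (R E : Finset (ι × ι)),
  (∀ r ∈ R, Evt s t k r) → (∀ r ∈ E, Evt s t k r) →
  ∃ z : ℝ, ∀ r ∈ E, MGen R s t (fun c => Real.exp (z * s c)) r

/-- a system with `G` gaps (at most `G + 1` slopes), `N` lines, and `m` events at level `M - 1` in
every gap -/
def HasG (G M m N : ℕ) : Prop :=
  ∃ (ι : Type) (_ : Fintype ι) (Q : Type) (_ : Fintype Q) (s t : ι → ℝ) (k : ℕ) (lo hi : Q → ℝ)
    (E : Q → Finset (ι × ι)), k + 1 = M ∧ Fintype.card Q = G ∧ Fintype.card ι = N ∧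
    (open Classical in ((univ : Finset ι).image s).card) ≤ G + 1 ∧
    (∀ q, (E q).card = m) ∧ (∀ q q', q ≠ q' → Disjoint (E q) (E q')) ∧
    ∀ q, ∀ e ∈ E q, Evt s t k e ∧ s e.2 = lo q ∧ s e.1 = hi q

/-- [MBASE] two crossing lines -/
def S_MBASE : Prop := HasG 1 1 1 2

/-- [MSTEP] refining `j` of the `G` gaps -/
def S_MSTEP : Prop := ∀ G M m N : ℕ, HasG G M m N → ∀ j a : ℕ, j ≤ G → 1 ≤ a →
  HasG (G + j) (a * M) (m * (a - j * m)) (a * N + j * m)

/-- [MIT] the iteration -/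
def S_MIT : Prop := S_MBASE → S_MSTEP → ∀ ε : ℝ, 0 < ε → ε ≤ 1 → ∃ C : ℕ, 1 ≤ C ∧
  ∀ G : ℕ, 1 ≤ G → ∃ M m N : ℕ, HasG G M m N ∧ 1 ≤ M ∧ M ≤ C ^ G ∧
    (1 - ε) * (M:ℝ) ≤ m ∧ (N:ℝ) ≤ 2 * (1 + ε) * M

/-- [MNUM] the uniform asymptotic form -/
def S_MNUM : Prop := (∀ ε : ℝ, 0 < ε → ε ≤ 1 → ∃ C : ℕ, 1 ≤ C ∧
  ∀ G : ℕ, 1 ≤ G → ∃ M m N : ℕ, HasG G M m N ∧ 1 ≤ M ∧ M ≤ C ^ G ∧
    (1 - ε) * (M:ℝ) ≤ m ∧ (N:ℝ) ≤ 2 * (1 + ε) * M) → S_FIN →
  ∀ ε : ℝ, 0 < ε → ∃ C : ℕ, ∀ D : ℕ, 2 ≤ D → ∀ n k : ℕ, C ^ D ≤ k → k + C ^ D ≤ n →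
    ∃ Γ : Finset (ℝ × ℝ), Γ.card = n ∧ (open Classical in (Γ.image Prod.fst).card ≤ D) ∧
      Pool.Agent.Y375.FD.NoThree Γ ∧
      (2 - ε) * ((D:ℝ) - 1) * (min k (n - k) : ℕ) ≤ (complexity Γ k : ℝ)

end Pool.Agent.Helper48K9.FD
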