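import Pool.Agent.Helper48K9.FD.Defs2

/-!
# The step: refining several gaps at once
-/

namespace Pool.Agent.Helper48K9.FD

open Finset Filter Topology KLev.Levels

namespace MStepL

variable {ι : Type} (R : Finset (ι × ι)) (a m : ℕ) (hma : m ≤ a) (ρ : ι × ι → ℕ)

/-- crossings of the new lines with the steep bundles -/
def fA {F : Finset (ι × ι)} (hF : F ⊆ R) (z : F × Fin m) :
    ((ι × Fin a) ⊕ R) × ((ι × Fin a) ⊕ R) :=
  (Sum.inl (z.1.1.1, Fin.castLE hma z.2), Sum.inr ⟨z.1.1, hF z.1.2⟩)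

/-- crossings of the new lines with the flat bundles -/
def fB {F : Finset (ι × ι)} (hF : F ⊆ R) (z : F × Fin m) :
    ((ι × Fin a) ⊕ R) × ((ι × Fin a) ⊕ R) :=
  (Sum.inr ⟨z.1.1, hF z.1.2⟩, Sum.inl (z.1.1.2, Fin.castLE hma z.2))

/-- crossings in the other grids -/
def fC (F : Finset (ι × ι)) (z : F × Fin m) : ((ι × Fin a) ⊕ R) × ((ι × Fin a) ⊕ R) :=
  (Sum.inl (z.1.1.1, Fin.castLE hma z.2),
    Sum.inl (z.1.1.2, ⟨a - 1 - ρ z.1.1 - z.2, by
      have := z.2.2
      omega⟩))

lemma fA_inj {F : Finset (ι × ι)} (hF : F ⊆ R) : Function.Injective (fA R a m hma hF) := by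
  rintro ⟨r, i⟩ ⟨r', i'⟩ h
  simp only [fA, Prod.mk.injEq, Sum.inl.injEq, Sum.inr.injEq, Subtype.mk.injEq] at h
  obtain ⟨⟨-, h1⟩, h2⟩ := h
  exact Prod.ext (Subtype.ext h2) (Fin.castLE_injective hma h1)

lemma fB_inj {F : Finset (ι × ι)} (hF : F ⊆ R) : Function.Injective (fB R a m hma hF) := by
  rintro ⟨r, i⟩ ⟨r', i'⟩ h
  simp only [fB, Prod.mk.injEq, Sum.inl.injEq, Sum.inr.injEq, Subtype.mk.injEq] at h
  obtain ⟨h1, -, h2⟩ := h
  exact Prod.ext (Subtype.ext h1) (Fin.castLE_injective hma h2)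

lemma fC_inj (F : Finset (ι × ι)) : Function.Injective (fC R a m hma ρ F) := by
  rintro ⟨r, i⟩ ⟨r', i'⟩ h
  simp only [fC, Prod.mk.injEq, Sum.inl.injEq] at h
  obtain ⟨⟨h1, h2⟩, h3, -⟩ := h
  exact Prod.ext (Subtype.ext (Prod.ext h1 h3)) (Fin.castLE_injective hma h2)

lemma card_aux {κ : Type} [DecidableEq κ] {F : Finset (ι × ι)} {f : F × Fin m → κ}
    (hf : Function.Injective f) : ((univ : Finset (F × Fin m)).image f).card = F.card * m := by
  rw [Finset.card_image_of_injective _ hf, Finset.card_univ, Fintype.card_prod,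
    Fintype.card_fin, Fintype.card_coe]

end MStepL

open MStepL

lemma mrho_le {ι : Type} (R : Finset (ι × ι)) (s t w : ι → ℝ) (r : ι × ι) :
    mrho R s t w r ≤ R.card := by
  classical
  unfold mrho
  exact Finset.card_filter_le _ _

theorem mstep (hA : S_MEVA) (hB : S_MEVB) (hC : S_MEVC) (hG : S_MGEN) : S_MSTEP := by
  classical
  intro G M m N hsys j a hj ha
  obtain ⟨ι, hι, Q, hQ, s, t, k, lo, hi, E, hM, hQc, hιc, hd, hm, hdisj, hE⟩ := hsys
  obtain ⟨J, -, hJ⟩ := Finset.exists_subset_card_eq (s := (univ : Finset Q)) (n := j)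
    (by rw [Finset.card_univ, hQc]; exact hj)
  set R : Finset (ι × ι) := J.biUnion E with hR
  have hRc : R.card = j * m := by
    rw [hR, Finset.card_biUnion (fun q _ q' _ h => hdisj q q' h), Finset.sum_congr rfl
      (fun q _ => hm q), Finset.sum_const, hJ, smul_eq_mul]
  set A : Finset (ι × ι) := univ.biUnion E with hAdef
  have hRA : ∀ r ∈ R, r ∈ A := by
    intro r hr
    obtain ⟨q, -, h⟩ := Finset.mem_biUnion.mp hr
    exact Finset.mem_biUnion.mpr ⟨q, mem_univ q, h⟩
  have hAE : ∀ r ∈ A, Evt s t k r := by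
    intro r hr
    obtain ⟨q, -, h⟩ := Finset.mem_biUnion.mp hr
    exact (hE q r h).1
  obtain ⟨z, hz⟩ := hG ι s t k R A (fun r hr => hAE r (hRA r hr)) hAE
  set w : ι → ℝ := fun c => Real.exp (z * s c) with hw
  have hwpos : ∀ c, 0 < w c := fun c => Real.exp_pos _
  set P : Q → ℝ := fun q => (hi q * Real.exp (z * lo q) + lo q * Real.exp (z * hi q)) /
    (Real.exp (z * hi q) + Real.exp (z * lo q)) with hP
  have hsl : ∀ q, ∀ r ∈ E q, sl s w r = P q := by
    intro q r hr
    obtain ⟨-, h1, h2⟩ := hE q r hr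
    simp only [sl, hw, hP, h1, h2]
  have hER : ∀ q ∈ J, E q ⊆ R := fun q hq => Finset.subset_biUnion_of_mem E hq
  have hnotR : ∀ q, q ∉ J → ∀ r ∈ E q, r ∉ R := by
    intro q hq r hr hr'
    obtain ⟨q', hq', h⟩ := Finset.mem_biUnion.mp hr'
    have hne : q ≠ q' := by
      rintro rfl
      exact hq hq'
    exact (Finset.disjoint_left.mp (hdisj q q' hne)) hr h
  set m₁ : ℕ := a - j * m with hm₁
  have hma : m₁ ≤ a := by omega
  set ρ : ι × ι → ℕ := mrho R s t w with hρ
  have hρle : ∀ r, ρ r ≤ j * m := fun r => hRc ▸ mrho_le R s t w r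
  have hmem : ∀ q, ∀ r ∈ E q, r ∈ A := fun q r h =>
    Finset.mem_biUnion.mpr ⟨q, mem_univ q, h⟩
  -- the new events
  have hev : ∀ᶠ δ in 𝓝[>] (0:ℝ),
      (∀ (q : J) z, Evt (ms R a s w) (fun c => mt0 R a s t w c + δ * mt1 R a s t w c)
        (a * k + (a - 1)) (fA R a m₁ hma (hER q.1 q.2) z)) ∧
      (∀ (q : J) z, Evt (ms R a s w) (fun c => mt0 R a s t w c + δ * mt1 R a s t w c)
        (a * k + (a - 1)) (fB R a m₁ hma (hER q.1 q.2) z)) ∧
      (∀ (q : {q // q ∉ J}) z, Evt (ms R a s w)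
        (fun c => mt0 R a s t w c + δ * mt1 R a s t w c)
        (a * k + (a - 1)) (fC R a m₁ hma ρ (E q.1) z)) := by
    refine Filter.Eventually.and ?_ (Filter.Eventually.and ?_ ?_)
    · rw [eventually_all]
      intro q
      rw [eventually_all]
      rintro ⟨⟨r, hr⟩, i⟩
      refine hA ι s t w k R a r (hER q.1 q.2 hr) (Fin.castLE hma i) (hE q.1 r hr).1
        (hz r (hmem q.1 r hr)) (hwpos _) (hwpos _) ?_
      have f1 := hρle r
      have f2 := i.2
      show (i:ℕ) + ρ r < a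
      omega
    · rw [eventually_all]
      intro q
      rw [eventually_all]
      rintro ⟨⟨r, hr⟩, i⟩
      refine hB ι s t w k R a r (hER q.1 q.2 hr) (Fin.castLE hma i) (hE q.1 r hr).1
        (hz r (hmem q.1 r hr)) (hwpos _) (hwpos _) ?_
      have f1 := hρle r
      have f2 := i.2
      show (i:ℕ) + ρ r < a
      omega
    · rw [eventually_all]
      intro q
      rw [eventually_all]
      rintro ⟨⟨r, hr⟩, i⟩
      have h6 := hC ι s t w k R a r (Fin.castLE hma i)
          ⟨a - 1 - ρ r - i, by have := i.2; omega⟩ (hE q.1 r hr).1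
          (hz r (hmem q.1 r hr)) (hwpos _) (hwpos _) (hnotR q.1 q.2 r hr)
      have h7 : a * k + mrho R s t w r + (Fin.castLE hma i : ℕ) +
            ((⟨a - 1 - ρ r - i, by have := i.2; omega⟩ : Fin a) : ℕ) = a * k + (a - 1) := by
        have f1 := hρle r
        have f2 := i.2
        show a * k + ρ r + (i:ℕ) + (a - 1 - ρ r - i) = a * k + (a - 1)
        omega
      rw [h7] at h6
      exact h6
  obtain ⟨δ, hδA, hδB, hδC⟩ := hev.exists
  refine ⟨(ι × Fin a) ⊕ R, inferInstance, (J ⊕ J) ⊕ {q // q ∉ J}, inferInstance, ms R a s w,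
    fun c => mt0 R a s t w c + δ * mt1 R a s t w c, a * k + (a - 1),
    Sum.elim (Sum.elim (fun q => P q.1) (fun q => lo q.1)) (fun q => lo q.1),
    Sum.elim (Sum.elim (fun q => hi q.1) (fun q => P q.1)) (fun q => hi q.1),
    Sum.elim (Sum.elim (fun q => univ.image (fA R a m₁ hma (hER q.1 q.2)))
      (fun q => univ.image (fB R a m₁ hma (hER q.1 q.2))))
      (fun q => univ.image (fC R a m₁ hma ρ (E q.1))), ?_, ?_, ?_, ?_, ?_, ?_, ?_⟩
  · rw [← hM, mul_add]
    omega
  · rw [Fintype.card_sum, Fintype.card_sum, Fintype.card_coe, Fintype.card_subtype_compl,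
      Fintype.card_coe, hQc, hJ]
    omega
  · rw [Fintype.card_sum, Fintype.card_prod, Fintype.card_fin, Fintype.card_coe, hιc, hRc,
      mul_comm]
  · have h3 : (Finset.univ : Finset ((ι × Fin a) ⊕ R)).image (ms R a s w) ⊆
        ((Finset.univ : Finset ι).image s) ∪ (J.image P) := by
      intro x hx
      obtain ⟨c, -, rfl⟩ := Finset.mem_image.mp hx
      rw [Finset.mem_union]
      rcases c with c | c
      · exact Or.inl (Finset.mem_image_of_mem s (Finset.mem_univ c.1))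
      · right
        obtain ⟨q, hq, h⟩ := Finset.mem_biUnion.mp c.2
        show sl s w c.1 ∈ _
        rw [hsl q c.1 h]
        exact Finset.mem_image_of_mem P hq
    have h4 := Finset.card_le_card h3
    have h5 := Finset.card_union_le ((Finset.univ : Finset ι).image s) (J.image P)
    have h6 : (J.image P).card ≤ j := hJ ▸ Finset.card_image_le
    omega
  · rintro ((q | q) | q)
    · show (univ.image _).card = _
      rw [card_aux m₁ (fA_inj R a m₁ hma _), hm]
    · show (univ.image _).card = _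
      rw [card_aux m₁ (fB_inj R a m₁ hma _), hm]
    · show (univ.image _).card = _
      rw [card_aux m₁ (fC_inj R a m₁ hma ρ _), hm]
  · rintro ((q | q) | q) ((q' | q') | q') hne
    all_goals
      rw [Finset.disjoint_left]
      intro e he he'
      simp only [Sum.elim_inl, Sum.elim_inr] at he he'
      obtain ⟨x, -, rfl⟩ := Finset.mem_image.mp he
      obtain ⟨y, -, hy⟩ := Finset.mem_image.mp he'
    · simp only [fA, Prod.mk.injEq, Sum.inl.injEq, Sum.inr.injEq, Subtype.mk.injEq] at hy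
      have hqq : q.1 ≠ q'.1 := fun h => hne (by rw [Subtype.ext h])
      refine (Finset.disjoint_left.mp (hdisj _ _ hqq)) x.1.2 ?_
      rw [← hy.2]
      exact y.1.2
    · simp [fA, fB] at hy
    · simp [fA, fC] at hy
    · simp [fA, fB] at hy
    · simp only [fB, Prod.mk.injEq, Sum.inl.injEq, Sum.inr.injEq, Subtype.mk.injEq] at hy
      have hqq : q.1 ≠ q'.1 := fun h => hne (by rw [Subtype.ext h])
      refine (Finset.disjoint_left.mp (hdisj _ _ hqq)) x.1.2 ?_
      rw [← hy.1]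
      exact y.1.2
    · simp [fB, fC] at hy
    · simp [fA, fC] at hy
    · simp [fB, fC] at hy
    · simp only [fC, Prod.mk.injEq, Sum.inl.injEq] at hy
      have hqq : q.1 ≠ q'.1 := fun h => hne (by rw [Subtype.ext h])
      refine (Finset.disjoint_left.mp (hdisj _ _ hqq)) x.1.2 ?_
      have hxy : y.1.1 = x.1.1 := Prod.ext hy.1.1 hy.2.1
      rw [← hxy]
      exact y.1.2
  · rintro ((q | q) | q) e he
    all_goals
      simp only [Sum.elim_inl, Sum.elim_inr] at he
      obtain ⟨x, -, rfl⟩ := Finset.mem_image.mp he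
    · exact ⟨hδA q x, hsl q.1 x.1.1 x.1.2, (hE q.1 x.1.1 x.1.2).2.2⟩
    · exact ⟨hδB q x, (hE q.1 x.1.1 x.1.2).2.1, hsl q.1 x.1.1 x.1.2⟩
    · exact ⟨hδC q x, (hE q.1 x.1.1 x.1.2).2.1, (hE q.1 x.1.1 x.1.2).2.2⟩

end Pool.Agent.Helper48K9.FD
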