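import Pool.Agent.Helper48K9.FD.Defs

/-!
# The step: one more slope
-/

namespace Pool.Agent.Helper48K9.FD

open Finset Filter Topology KLev.Levels

namespace StepL

variable {ι : Type} (E₁ E₂ : Finset (ι × ι)) (a m : ℕ) (hma : m ≤ a) (ρ : ι × ι → ℕ)

/-- crossings of the new lines with the steep bundles -/
def fA (z : E₁ × Fin m) : ((ι × Fin a) ⊕ E₁) × ((ι × Fin a) ⊕ E₁) :=
  (Sum.inl (z.1.1.1, Fin.castLE hma z.2), Sum.inr z.1)

/-- crossings of the new lines with the flat bundles -/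
def fB (z : E₁ × Fin m) : ((ι × Fin a) ⊕ E₁) × ((ι × Fin a) ⊕ E₁) :=
  (Sum.inr z.1, Sum.inl (z.1.1.2, Fin.castLE hma z.2))

/-- crossings in the other grids -/
def fC (z : E₂ × Fin m) : ((ι × Fin a) ⊕ E₁) × ((ι × Fin a) ⊕ E₁) :=
  (Sum.inl (z.1.1.1, Fin.castLE hma z.2),
    Sum.inl (z.1.1.2, ⟨a - 1 - ρ z.1.1 - z.2, by
      have := z.2.2
      omega⟩))

lemma fA_inj : Function.Injective (fA E₁ a m hma) := by
  rintro ⟨r, i⟩ ⟨r', i'⟩ h
  simp only [fA, Prod.mk.injEq, Sum.inl.injEq, Sum.inr.injEq] at h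
  obtain ⟨⟨-, h1⟩, h2⟩ := h
  exact Prod.ext h2 (Fin.castLE_injective hma h1)

lemma fBC_inj : Function.Injective (Sum.elim (fB E₁ a m hma) (fC E₁ E₂ a m hma ρ)) := by
  rintro (⟨r, i⟩ | ⟨r, i⟩) (⟨r', i'⟩ | ⟨r', i'⟩) h
  · simp only [Sum.elim_inl, fB, Prod.mk.injEq, Sum.inl.injEq, Sum.inr.injEq] at h
    obtain ⟨h1, -, h2⟩ := h
    exact congrArg Sum.inl (Prod.ext h1 (Fin.castLE_injective hma h2))
  · simp [fB, fC] at h
  · simp [fB, fC] at h
  · simp only [Sum.elim_inr, fC, Prod.mk.injEq, Sum.inl.injEq] at h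
    obtain ⟨⟨h1, h2⟩, h3, -⟩ := h
    exact congrArg Sum.inr (Prod.ext (Subtype.ext (Prod.ext h1 h3)) (Fin.castLE_injective hma h2))

end StepL

open StepL

lemma rho_le {ι : Type} (R : Finset (ι × ι)) (s t : ι → ℝ) (p : ℝ) (r : ι × ι) :
    rho R s t p r ≤ R.card := by
  classical
  unfold rho
  exact Finset.card_filter_le _ _

theorem step (hA : S_EVA) (hB : S_EVB) (hC : S_EVC) (hG : S_GEN) : S_STEP := by
  classical
  intro D hD hsys ε hε
  set ε' : ℝ := min ε 1 / 2 with hε'
  have hmin : 0 < min ε 1 := lt_min hε one_pos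
  have e1 : 0 < ε' := by positivity
  have e2 : 2 * ε' ≤ ε := by rw [hε']; linarith [min_le_left ε 1]
  have e3 : 2 * ε' ≤ 1 := by rw [hε']; linarith [min_le_right ε 1]
  obtain ⟨ι, hι, s, t, k, y, S, E₁, E₂, hyS, h1, h2, hd, hc1, hc2, hcι⟩ := hsys ε' e1
  obtain ⟨p, hyp, hpS, hgen⟩ := hG ι s t k E₁ (E₁ ∪ E₂) y S (fun r hr => (h1 r hr).1)
    (fun r hr => by
      rcases Finset.mem_union.mp hr with h | h
      · exact (h1 r h).1
      · exact (h2 r h).1) hyS
  obtain ⟨a, ha⟩ : ∃ a : ℕ, (E₁.card : ℝ) / ε' + E₁.card + 1 ≤ a := exists_nat_ge _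
  have hdiv : 0 ≤ (E₁.card : ℝ) / ε' := by positivity
  have hcard0 : (0:ℝ) ≤ E₁.card := by positivity
  have haE : E₁.card + 1 ≤ a := by
    have : ((E₁.card + 1 : ℕ) : ℝ) ≤ a := by push_cast; linarith
    exact_mod_cast this
  have haε : (E₁.card : ℝ) ≤ ε' * a := by
    have h3 : (E₁.card : ℝ) / ε' ≤ a := by linarith
    rw [div_le_iff₀ e1] at h3
    linarith
  obtain ⟨m, hm⟩ : ∃ m, a = E₁.card + m := ⟨a - E₁.card, by omega⟩
  have hma : m ≤ a := by omega
  have ha1 : 1 ≤ a := by omega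
  set ρ : ι × ι → ℕ := rho E₁ s t p with hρ
  have hρle : ∀ r, ρ r ≤ E₁.card := fun r => rho_le E₁ s t p r
  set w : ι → ℝ := fun c => |s c - p| with hw
  have hdisj : ∀ r ∈ E₂, r ∉ E₁ := by
    intro r hr hr1
    have h3 := (h1 r hr1).2.2
    have h4 := (h2 r hr).2
    linarith
  -- the new events
  have hev : ∀ᶠ δ in 𝓝[>] (0:ℝ),
      (∀ z, Evt (ns E₁ a s p) (fun c => nt0 E₁ a s t p c + δ * nt1 E₁ a s t p w c)
        (a * k + (a - 1)) (fA E₁ a m hma z)) ∧
      (∀ z, Evt (ns E₁ a s p) (fun c => nt0 E₁ a s t p c + δ * nt1 E₁ a s t p w c)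
        (a * k + (a - 1)) (Sum.elim (fB E₁ a m hma) (fC E₁ E₂ a m hma ρ) z)) := by
    have hpos : ∀ r ∈ E₁, w r.1 = s r.1 - p ∧ w r.2 = p - s r.2 ∧ 0 < w r.1 ∧ 0 < w r.2 := by
      intro r hr
      have h3 := (h1 r hr).2.2
      have h4 := (h1 r hr).2.1
      have f1 : w r.1 = s r.1 - p := by simp only [hw]; rw [abs_of_pos]; linarith
      have f2 : w r.2 = p - s r.2 := by simp only [hw]; rw [abs_of_neg] <;> linarith
      refine ⟨f1, f2, ?_, ?_⟩
      · rw [f1]; linarith
      · rw [f2]; linarith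
    apply Filter.Eventually.and
    · rw [eventually_all]
      rintro ⟨⟨r, hr⟩, i⟩
      obtain ⟨g1, g2, g3, g4⟩ := hpos r hr
      refine hA ι s t k E₁ a p w r hr (Fin.castLE hma i) (h1 r hr).1
        (hgen r (Finset.mem_union_left _ hr)) g1 g2 g3 g4 ?_
      have f1 := hρle r
      have f2 := i.2
      show (i:ℕ) + ρ r < a
      omega
    · rw [eventually_all]
      rintro (⟨⟨r, hr⟩, i⟩ | ⟨⟨r, hr⟩, i⟩)
      · obtain ⟨g1, g2, g3, g4⟩ := hpos r hr
        refine hB ι s t k E₁ a p w r hr (Fin.castLE hma i) (h1 r hr).1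
          (hgen r (Finset.mem_union_left _ hr)) g1 g2 g3 g4 ?_
        have f1 := hρle r
        have f2 := i.2
        show (i:ℕ) + ρ r < a
        omega
      · have h3 := (h2 r hr).2
        have h4 := (h2 r hr).1.lt
        have f1 : 0 < w r.1 := by
          simp only [hw]
          rw [abs_pos]
          intro h5
          linarith
        have f2 : 0 < w r.2 := by
          simp only [hw]
          rw [abs_pos]
          intro h5
          linarith
        have h6 := hC ι s t k E₁ a p w r (Fin.castLE hma i)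
          ⟨a - 1 - ρ r - i, by have := i.2; omega⟩ (h2 r hr).1
          (hgen r (Finset.mem_union_right _ hr)) f1 f2 (hdisj r hr)
        have h7 : a * k + rho E₁ s t p r + (Fin.castLE hma i : ℕ) +
            ((⟨a - 1 - ρ r - i, by have := i.2; omega⟩ : Fin a) : ℕ) = a * k + (a - 1) := by
          have f1 := hρle r
          have f2 := i.2
          show a * k + ρ r + (i:ℕ) + (a - 1 - ρ r - i) = a * k + (a - 1)
          omega
        rw [h7] at h6
        exact h6
  obtain ⟨δ, hδ1, hδ2⟩ := hev.exists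
  refine ⟨(ι × Fin a) ⊕ E₁, inferInstance, ns E₁ a s p,
    fun c => nt0 E₁ a s t p c + δ * nt1 E₁ a s t p w c, a * k + (a - 1), p, S,
    Finset.univ.image (fA E₁ a m hma),
    Finset.univ.image (Sum.elim (fB E₁ a m hma) (fC E₁ E₂ a m hma ρ)), hpS, ?_, ?_, ?_, ?_, ?_, ?_⟩
  · intro e he
    obtain ⟨z, -, rfl⟩ := Finset.mem_image.mp he
    exact ⟨hδ1 z, le_refl _, (h1 z.1.1 z.1.2).2.2⟩
  · intro e he
    obtain ⟨z, -, rfl⟩ := Finset.mem_image.mp he
    refine ⟨hδ2 z, ?_⟩
    rcases z with z | z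
    · exact le_refl _
    · exact (h2 z.1.1 z.1.2).2.trans hyp.le
  · have h3 : (Finset.univ : Finset ((ι × Fin a) ⊕ E₁)).image (ns E₁ a s p) ⊆
        insert p ((Finset.univ : Finset ι).image s) := by
      intro x hx
      obtain ⟨c, -, rfl⟩ := Finset.mem_image.mp hx
      rcases c with c | c
      · exact Finset.mem_insert_of_mem (Finset.mem_image_of_mem s (Finset.mem_univ c.1))
      · exact Finset.mem_insert_self _ _
    exact (Finset.card_le_card h3).trans ((Finset.card_insert_le _ _).trans (by omega))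
  · rw [Finset.card_image_of_injective _ (fA_inj E₁ a m hma), Finset.card_univ, Fintype.card_prod,
      Fintype.card_fin, Fintype.card_coe]
    have h3 : ((a * k + (a - 1) : ℕ) : ℝ) + 1 = a * (k + 1) := by
      have : a * k + (a - 1) + 1 = a * (k + 1) := by
        rw [mul_add]
        omega
      exact_mod_cast this
    rw [h3]
    have hm' : (m : ℝ) = a - E₁.card := by rw [hm]; push_cast; ring
    have hk : (0:ℝ) ≤ k := by positivity
    have ha0 : (0:ℝ) ≤ a := by positivity
    have f1 : (1 - ε') * a ≤ m := by rw [hm']; linarith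
    push_cast
    calc (1 - ε) * (a * ((k:ℝ) + 1)) ≤ (1 - ε') * (1 - ε') * (a * (k + 1)) := by
          apply mul_le_mul_of_nonneg_right _ (by positivity)
          nlinarith
      _ = ((1 - ε') * (k + 1)) * ((1 - ε') * a) := by ring
      _ ≤ E₁.card * m := by
          apply mul_le_mul hc1 f1 _ hcard0
          apply mul_nonneg _ ha0
          linarith
  · rw [Finset.card_image_of_injective _ (fBC_inj E₁ E₂ a m hma ρ), Finset.card_univ,
      Fintype.card_sum, Fintype.card_prod, Fintype.card_prod, Fintype.card_fin, Fintype.card_coe,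
      Fintype.card_coe]
    have h3 : ((a * k + (a - 1) : ℕ) : ℝ) + 1 = a * (k + 1) := by
      have : a * k + (a - 1) + 1 = a * (k + 1) := by
        rw [mul_add]
        omega
      exact_mod_cast this
    rw [h3]
    have hm' : (m : ℝ) = a - E₁.card := by rw [hm]; push_cast; ring
    have hk : (0:ℝ) ≤ k := by positivity
    have ha0 : (0:ℝ) ≤ a := by positivity
    have hD2 : (2:ℝ) ≤ D := by exact_mod_cast hD
    have f1 : (1 - ε') * a ≤ m := by rw [hm']; linarith
    have f2 : ((D:ℝ) - 1) * ((1 - ε') * (k + 1)) ≤ E₁.card + E₂.card := by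
      have : ((D:ℝ) - 1) * ((1 - ε') * (k + 1)) =
        (1 - ε') * (k + 1) + ((D:ℝ) - 2) * (1 - ε') * (k + 1) := by ring
      rw [this]
      exact add_le_add hc1 hc2
    push_cast
    calc ((D:ℝ) + 1 - 2) * (1 - ε) * (a * ((k:ℝ) + 1))
        = (1 - ε) * (((D:ℝ) - 1) * (a * (k + 1))) := by ring
      _ ≤ (1 - ε') * (1 - ε') * (((D:ℝ) - 1) * (a * (k + 1))) := by
          apply mul_le_mul_of_nonneg_right
          · nlinarith
          · apply mul_nonneg (by linarith) (by positivity)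
      _ = (((D:ℝ) - 1) * ((1 - ε') * (k + 1))) * ((1 - ε') * a) := by ring
      _ ≤ (E₁.card + E₂.card) * m := by
          apply mul_le_mul f2 f1 _ (by positivity)
          apply mul_nonneg _ ha0
          linarith
      _ = (E₁.card : ℝ) * m + E₂.card * m := by ring
  · rw [Fintype.card_sum, Fintype.card_prod, Fintype.card_fin, Fintype.card_coe]
    have h3 : ((a * k + (a - 1) : ℕ) : ℝ) + 1 = a * (k + 1) := by
      have : a * k + (a - 1) + 1 = a * (k + 1) := by
        rw [mul_add]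
        omega
      exact_mod_cast this
    rw [h3]
    have hk : (0:ℝ) ≤ k := by positivity
    have ha0 : (0:ℝ) ≤ a := by positivity
    push_cast
    have f1 : (Fintype.card ι : ℝ) * a ≤ 2 * (1 + ε') * (k + 1) * a :=
      mul_le_mul_of_nonneg_right hcι ha0
    have f2 : ε' * a ≤ ε' * (a * (k + 1)) := by
      apply mul_le_mul_of_nonneg_left _ e1.le
      nlinarith
    have f3 : ε' * (a * ((k:ℝ) + 1)) * 2 ≤ ε * (a * (k + 1)) := by
      have : 0 ≤ (a:ℝ) * (k + 1) := by positivity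
      nlinarith
    have f4 : 0 ≤ ε * ((a:ℝ) * (k + 1)) := by positivity
    nlinarith [f1, f2, f3, haε, f4]

end Pool.Agent.Helper48K9.FD
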