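import Pool.Agent.Y375.FD.Upper

/-!
# The upper bound, in asymptotic form
-/

namespace Pool.Agent.Helper48K9.FD

open KLev.Levels

theorem upp (ε : ℝ) (hε : 0 < ε) (C : ℕ) (hC : 1 / ε ≤ C) (hC1 : 1 ≤ C) (D : ℕ) (hD : 2 ≤ D)
    (n k : ℕ) (h1 : C ^ D ≤ k) (h2 : k + C ^ D ≤ n) (Γ : Finset (ℝ × ℝ)) (hn : Γ.card = n)
    (hd : (open Classical in (Γ.image Prod.fst).card) ≤ D) :
    (complexity Γ k : ℝ) ≤ (2 + ε) * ((D:ℝ) - 1) * (min k (n - k) : ℕ) := by
  classical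
  have h3 : complexity Γ k ≤
      ((open Classical in (Γ.image Prod.fst).card) - 1) * (2 * min k (Γ.card - 1 - k) + 1) := by
    convert Pool.Agent.Y375.FD.upper Γ k
  set m : ℕ := min k (n - k) with hm
  have h4 : C ≤ C ^ D := Nat.le_self_pow (by omega) C
  have h5 : C ≤ m := by rw [hm]; omega
  have h6 : 1 / ε ≤ m := hC.trans (by exact_mod_cast h5)
  have h7 : 1 ≤ ε * m := by
    rw [div_le_iff₀ hε] at h6
    linarith
  have h8 : complexity Γ k ≤ (D - 1) * (2 * m + 1) := by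
    refine h3.trans (Nat.mul_le_mul (by omega) ?_)
    rw [hn, hm]
    omega
  have h9 : (complexity Γ k : ℝ) ≤ (((D - 1) * (2 * m + 1) : ℕ) : ℝ) := by exact_mod_cast h8
  refine h9.trans ?_
  have h10 : ((D - 1 : ℕ) : ℝ) = (D:ℝ) - 1 := by
    rw [Nat.cast_sub (by omega)]
    push_cast
    ring
  push_cast
  rw [h10]
  have h11 : (0:ℝ) ≤ (D:ℝ) - 1 := by
    have : (2:ℝ) ≤ D := by exact_mod_cast hD
    linarith
  calc ((D:ℝ) - 1) * (2 * (m:ℝ) + 1) ≤ ((D:ℝ) - 1) * (2 * m + ε * m) := by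
        apply mul_le_mul_of_nonneg_left _ h11
        linarith
    _ = _ := by ring

end Pool.Agent.Helper48K9.FD
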